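import Pool.Agent.SNT.Lang
import Pool.Agent.Helper75.Lin.Dag

/-!
# SNT/Axes: linear languages reduce to the grammar with rules of the shapes `(a, 0)`, `(0, b)`
-/

set_option autoImplicit false

namespace Pool.Agent.SNT

open Classical Pool.Agent.Helper38.LinL Pool.Agent.Helper38.LinL.LinearGrammar
open Pool.Agent.Helper75.Lin (DagStep mem_iff_dag nV Ed)
open Pool.Agent.Helper75.Lin4 (rp FL rp_length)
open Blk

set_option linter.unusedSimpArgs false
set_option linter.unusedVariables false
set_option linter.unusedSectionVars false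

section FL

variable {α : Type} {Y : Type} [Cod Y] {β γ : Type}

theorem FL.ite {P : List α → Y → Prop} (hP : FP P) {V V' : List α → Y → List β}
    (h : FL V) (h' : FL V') : FL fun w y => if P w y then V w y else V' w y := by
  refine ⟨Helper75.Lin4.Fn.congr' (Fn.ite hP h.len h'.len) fun w y => by split_ifs <;> rfl,
    fun b => ?_⟩
  have hP' : FP fun w (z : Y × ℕ) => P w z.1 := hP.comp Fn.id.fst
  refine ((hP'.and (h.get b)).or (hP'.not.and (h'.get b))).congr fun w z => ?_
  by_cases hp : P w z.1 <;> simp [hp]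

theorem getElem?_flatRep (g : β → γ) {a : ℕ} (ha : 0 < a) : ∀ (l : List β) (m : ℕ),
    (l.flatMap fun c => List.replicate a (g c))[m]? = (l[m / a]?).map g := by
  intro l
  induction l with
  | nil => intro m; simp
  | cons c l ih =>
    intro m
    rw [List.flatMap_cons]
    rcases Nat.lt_or_ge m a with h | h
    · rw [List.getElem?_append_left (by simpa using h), Nat.div_eq_of_lt h]
      simp [h]
    · rw [List.getElem?_append_right (by simpa using h), ih, List.length_replicate]
      have e : m / a = (m - a) / a + 1 := by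
        rw [← Nat.add_div_right _ ha, Nat.sub_add_cancel h]
      rw [e]
      simp

theorem FL.flatRep [Fintype β] {V : List α → Y → List β} (h : FL V) (g : β → γ) {a : ℕ}
    (ha : 0 < a) : FL fun w y => (V w y).flatMap fun c => List.replicate a (g c) := by
  refine ⟨Helper75.Lin4.Fn.congr' (h.len.mul (Fn.const a)) fun w y => by
    simp [List.length_flatMap], fun b => ?_⟩
  refine (FP.exFin (β := β) (P := fun c (w : List α) (z : Y × ℕ) =>
    g c = b ∧ (V w z.1)[z.2 / a]? = some c) fun c => (FP.constP _).and ?_).congr ?_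
  · exact (h.get c).comp (g := fun w (z : Y × ℕ) => (z.1, z.2 / a))
      (Fn.id.fst.pair (Fn.id.snd.div (Fn.const a)))
  · intro w z
    rw [getElem?_flatRep g ha, Option.map_eq_some_iff]
    constructor
    · rintro ⟨c, h1, h2⟩; exact ⟨c, h2, h1⟩
    · rintro ⟨c, h1, h2⟩; exact ⟨c, h2, h1⟩

theorem FL.wn {τ x : List α → Y → ℕ} (hτ : Fn τ) (hx : Fn x) (D : Blk) :
    FL fun w y => wn (τ w y) (x w y) D := by
  unfold SNT.wn
  exact ((FL.rp hx (FL.const _)).append (FL.const _)).append
    (FL.rp ((hτ.sub (Fn.const 1)).sub hx) (FL.const _))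

theorem wn_length {τ x : ℕ} (hx : x < τ) {D : Blk} (hD : D ≠ V) :
    (wn τ x D).length = 2 * (τ - 1) + 3 := by
  have h3 : (bt D).length = 3 := by
    cases D
    · exact absurd rfl hD
    · rfl
    · rfl
  unfold wn
  simp only [List.length_append, rp_length, show (bt V).length = 2 from rfl, h3]
  omega

theorem Fn.mkk {N k : List α → Y → ℕ} (hN : Fn N) (hk : Fn k) :
    Fn fun w y => mkk (N w y) (k w y) := by
  unfold SNT.mkk
  have hN1 := hN.sub (Fn.const 1)
  have h1 := hk.mod hN1
  exact Fn.ite (FP.lt h1 hN1) (hN1.sub h1) (Fn.const 1)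

theorem FL.txt {N : List α → Y → ℕ} (hN : Fn N) (hN0 : ∀ w y, 0 < N w y)
    {E : List α → Y × ℕ × ℕ → Prop} (hE : FP E) :
    FL fun w y => txt (N w y) (fun p q => E w (y, p, q)) := by
  unfold SNT.txt
  have hτ : Fn fun w y => N w y + 4 := hN.add (Fn.const 4)
  refine FL.append ?_ (FL.rp hτ (FL.const _))
  refine FL.bind (n := fun w y => N w y * (N w y - 1)) (Λ := fun w y => 2 * (N w y + 4 - 1) + 3)
    (F := fun w (z : Y × ℕ) => SNT.wn (N w z.1 + 4) (SNT.mkk (N w z.1) z.2)
      (kdk (N w z.1) (fun p q => E w (z.1, p, q)) z.2))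
    (hN.mul (hN.sub (Fn.const 1)))
    (((Fn.const 2).mul (hτ.sub (Fn.const 1))).add (Fn.const 3)) ?_
    (fun w y i => wn_length (lt_of_le_of_lt (mkk_le (hN0 w y) i) (by simp)) (kdk_ne _))
  have hN' : Fn fun w (z : Y × ℕ) => N w z.1 := hN.comp Fn.id.fst
  have hτ' : Fn fun w (z : Y × ℕ) => N w z.1 + 4 := hτ.comp Fn.id.fst
  have hi : Fn fun (w : List α) (z : Y × ℕ) => z.2 := Fn.id.snd
  have hN1 := hN'.sub (Fn.const 1)
  have hd := hi.div hN1
  have hm := hi.mod hN1
  have hq := (hd.add (Fn.const 1)).add hm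
  have hcond : FP fun w (z : Y × ℕ) => z.2 / (N w z.1 - 1) + 1 + z.2 % (N w z.1 - 1) < N w z.1 ∧
      E w (z.1, z.2 / (N w z.1 - 1), z.2 / (N w z.1 - 1) + 1 + z.2 % (N w z.1 - 1)) := by
    refine (FP.lt hq hN').and ?_
    exact hE.comp (g := fun w (z : Y × ℕ) => (z.1, z.2 / (N w z.1 - 1),
      z.2 / (N w z.1 - 1) + 1 + z.2 % (N w z.1 - 1))) (Fn.id.fst.pair (hd.pair hq))
  have hk := Fn.mkk hN' hi
  refine (FL.ite hcond (FL.wn hτ' hk U) (FL.wn hτ' hk W)).congr fun w z => ?_
  unfold kdk
  split_ifs <;> rfl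

theorem FL.lft {N : List α → Y → ℕ} (hN : Fn N) : FL fun w y => lft (N w y) := by
  unfold SNT.lft
  have c : ∀ m, Fn fun (_ : List α) (_ : Y) => m := fun m => Fn.const m
  have r : ∀ {n : List α → Y → ℕ}, Fn n → FL fun w y => Helper75.Lin4.rp (n w y) wA := fun hn =>
    FL.rp hn (FL.const _)
  exact ((r (hN.sub (c 1))).append (FL.rp (hN.mul (hN.sub (c 1)))
    ((FL.const _).append (r (hN.add (c 2)))))).append (r (hN.add (c 4)))

theorem FL.wrd {a b : ℕ} (ha : 0 < a) (hb : 0 < b) {N : List α → Y → ℕ} (hN : Fn N)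
    (hN0 : ∀ w y, 0 < N w y) {E : List α → Y × ℕ × ℕ → Prop} (hE : FP E) :
    FL fun w y => wrd a b (N w y) (fun p q => E w (y, p, q)) := by
  unfold SNT.wrd fl fr
  have h1 := FL.flatRep (FL.lft hN) Ab.L ha
  have h2 := (FL.flatRep (FL.txt hN hN0 hE) Ab.R hb).reverse
  refine (h1.append ((FL.const [Ab.M]).append h2)).congr fun w y => ?_
  simp

/-- Reachability in acyclic graphs given by logarithmic space predicates. -/
theorem FP.dagA {a b : ℕ} (ha : 0 < a) (hb : 0 < b) (h : InL (GA a b).language)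
    {N : List α → Y → ℕ} (hN : Fn N) (hN0 : ∀ w y, 0 < N w y)
    {E : List α → Y × ℕ × ℕ → Prop} (hE : FP E) :
    FP fun w y => Relation.ReflTransGen (DagStep (N w y) fun p q => E w (y, p, q)) 0
      (N w y - 1) := by
  have h1 := FL.wrd ha hb hN hN0 hE
  exact (FP.inL_comp h h1.len h1.get).congr fun w y => (wrd_mem ha hb (hN0 w y)).symm

end FL

/-- If the language of `GA a b` is in `L` then so are all linear languages. -/
theorem inL_of_GA {a b : ℕ} (ha : 0 < a) (hb : 0 < b) {α : Type} {G : LinearGrammar α}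
    (h : InL (GA a b).language) : InL G.language := by
  refine inL_of_FP _ (fun w y => Relation.ReflTransGen (DagStep (nV G w.length)
    fun p q => Ed G w p q) 0 (nV G w.length - 1)) ?_ fun w => mem_iff_dag.symm
  refine FP.dagA ha hb h (N := fun w y => nV G w.length) ?_ ?_
    (E := fun w (z : Unit × ℕ × ℕ) => Ed G w z.2.1 z.2.2) Pool.Agent.Helper75.Lin.FP.ed
  · unfold nV
    exact ((Fn.lenSucc.mul Fn.lenSucc).mul (Fn.const _)).add (Fn.const 2)
  · intro w y
    unfold nV
    omega

end Pool.Agent.SNT
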