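import Pool.Agent.Helper38.LinL.Grammar

/-!
# SNT/Defs: grammars with few nonterminals and given shapes
-/

set_option autoImplicit false

namespace Pool.Agent.SNT

open Pool.Agent.Helper38.LinL

/-- The grammar has at most `k` nonterminals, and each of its rules `A → u B v` has a shape
`(|u|, |v|)` in the set `F`. (There is no condition on the rules `A → u`.) -/
def Fam (k : ℕ) (F : Set (ℕ × ℕ)) {α : Type} (G : LinearGrammar α) : Prop :=
  Nat.card G.N ≤ k ∧ ∀ A u B v, (A, u, B, v) ∈ G.rules → (u.length, v.length) ∈ F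

/-- All elements of `F` are on one line through the origin, or `k = 1` and all elements of `F`
are on the coordinate axes. -/
def Easy (k : ℕ) (F : Set (ℕ × ℕ)) : Prop :=
  (∀ p ∈ F, ∀ q ∈ F, p.1 * q.2 = p.2 * q.1) ∨ (k = 1 ∧ ∀ p ∈ F, p.1 = 0 ∨ p.2 = 0)

/-- `k = 1`, and `F` is contained in a set of the form `{0, s, t, s + t}`. -/
def Planar (k : ℕ) (F : Set (ℕ × ℕ)) : Prop :=
  k = 1 ∧ ∃ s t : ℕ × ℕ, ∀ p ∈ F, p = 0 ∨ p = s ∨ p = t ∨ p = s + t

end Pool.Agent.SNT
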