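import Pool.Agent.SNT.Main
import Pool.Agent.SNT.Defs

/-!
# SNT/Class: the classification
-/

set_option autoImplicit false

namespace Pool.Agent.SNT

open Pool.Agent.Helper38.LinL Pool.Agent.Helper38.LinL.LinearGrammar Pool.Agent.Helper38.Shape
open Pool.Agent.Helper38.LinTwo (LGGR)

section remove

variable {α : Type} (G : LinearGrammar α)

open Classical in
/-- The grammar without the rules `A → B`. -/
noncomputable def cut : LinearGrammar α where
  N := G.N
  finN := G.finN
  start := G.start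
  rules := G.rules.filter fun z => ¬ (z.2.1 = [] ∧ z.2.2.2 = [])
  term := G.term

variable {G}

theorem mem_cut {A B : G.N} {u v : List α} : ((A, u, B, v) : G.N × List α × G.N × List α) ∈
    (cut G).rules ↔ (A, u, B, v) ∈ G.rules ∧ ¬ (u = [] ∧ v = []) := by
  classical
  unfold cut
  simp only [Finset.mem_filter]

theorem of_cut {A B : (cut G).N} {u v : List α} (h : (cut G).Derives A u B v) :
    G.Derives A u B v := by
  induction h with
  | refl => exact Derives.refl (G := G)
  | step _ hr ih => exact Derives.step (G := G) ih (mem_cut.1 hr).1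

theorem cut_derives (h1 : ∀ A B : G.N, A = B) {A B : G.N} {u v : List α} :
    (cut G).Derives A u B v ↔ G.Derives A u B v := by
  constructor
  · exact of_cut
  · intro h
    induction h with
    | refl => exact Derives.refl (G := cut G)
    | @step u B v u' C v' _ hr ih =>
      by_cases h0 : u' = [] ∧ v' = []
      · obtain ⟨rfl, rfl⟩ := h0
        rw [List.append_nil, List.nil_append, h1 C B]
        exact ih
      · exact Derives.step (G := cut G) ih (mem_cut.2 ⟨hr, h0⟩)

theorem cut_language (h1 : ∀ A B : G.N, A = B) : (cut G).language = G.language := by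
  ext w
  constructor
  · rintro ⟨u, B, v, t, h, ht, rfl⟩
    exact ⟨u, B, v, t, (cut_derives h1).1 h, ht, rfl⟩
  · rintro ⟨u, B, v, t, h, ht, rfl⟩
    exact ⟨u, B, v, t, (cut_derives h1).2 h, ht, rfl⟩

end remove

variable {F : Set (ℕ × ℕ)}

theorem fam_one {α : Type} {G : LinearGrammar α} (h : Fam 1 F G) :
    (∀ A B : G.N, A = B) ∧ OneShape (F \ {0}) (cut G) := by
  have := G.finN
  have h1 : ∀ A B : G.N, A = B := by
    have := Finite.card_le_one_iff_subsingleton.1 h.1
    exact fun A B => Subsingleton.elim A B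
  refine ⟨h1, fun A B => h1 A B, fun A u B v hr => ?_⟩
  obtain ⟨h2, h3⟩ := mem_cut.1 hr
  refine ⟨h.2 _ _ _ _ h2, fun h4 => h3 ?_⟩
  have e1 : (u.length, v.length) = ((0, 0) : ℕ × ℕ) := h4
  simp only [Prod.mk.injEq, List.length_eq_zero_iff] at e1
  exact e1

theorem fam_of_one {α : Type} {G : LinearGrammar α} (h : OneShape (F \ {0}) G) {k : ℕ}
    (hk : 0 < k) : Fam k F G := by
  have := G.finN
  have h1 : Subsingleton G.N := ⟨h.1⟩
  exact ⟨(Finite.card_le_one_iff_subsingleton.2 h1).trans hk, fun A u B v hr => (h.2 A u B v hr).1⟩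

theorem degenerate_iff : Degenerate (F \ {0}) ↔ Easy 1 F := by
  unfold Degenerate Easy
  have h0 : ∀ p : ℕ × ℕ, p = 0 ∨ p ≠ 0 := fun p => eq_or_ne p 0
  constructor
  · rintro (h | h)
    · left
      intro p hp q hq
      rcases h0 p with rfl | hp0
      · simp
      · rcases h0 q with rfl | hq0
        · simp
        · exact h p ⟨hp, hp0⟩ q ⟨hq, hq0⟩
    · right
      refine ⟨rfl, fun p hp => ?_⟩
      rcases h0 p with rfl | hp0
      · simp
      · exact h p ⟨hp, hp0⟩
  · rintro (h | ⟨_, h⟩)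
    · exact Or.inl fun p hp q hq => h p hp.1 q hq.1
    · exact Or.inr fun p hp => h p hp.1

theorem planar_iff : PlanarSet (F \ {0}) ↔ Planar 1 F := by
  unfold PlanarSet Planar
  constructor
  · rintro ⟨s, t, h⟩
    refine ⟨rfl, s, t, fun p hp => ?_⟩
    by_cases h0 : p = 0
    · exact Or.inl h0
    · exact Or.inr (h p ⟨hp, h0⟩)
  · rintro ⟨_, s, t, h⟩
    refine ⟨s, t, fun p hp => ?_⟩
    rcases h p hp.1 with h1 | h1
    · exact absurd h1 hp.2
    · exact h1

theorem zero_notMem : ((0, 0) : ℕ × ℕ) ∉ F \ {0} := fun h => h.2 rfl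

theorem easy_case {k : ℕ} (h : Easy k F) {β : Type} (hβ : Finite β) {H : LinearGrammar β}
    (hH : Fam k F H) : InL H.language := by
  rcases h with h | ⟨rfl, h⟩
  · exact inL_of_parallel h hH.2
  · obtain ⟨h1, h2⟩ := fam_one hH
    rw [← cut_language h1]
    exact inL_degenerate (degenerate_iff.2 (Or.inr ⟨rfl, h⟩)) h2

theorem planar_case' {k : ℕ} (hE : ¬ Easy k F) (hP : Planar k F) :
    ∃ (α : Type) (_ : Finite α) (G : LinearGrammar α), Fam k F G ∧ (InL G.language ↔ InL LGGR) ∧
      ((∀ (β : Type) (_ : Finite β) (H : LinearGrammar β), Fam k F H → InL H.language) ↔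
        InL LGGR) := by
  obtain rfl := hP.1
  obtain ⟨α, hα, G, h1, h2, h3⟩ := planar_case (mt degenerate_iff.1 hE) (planar_iff.2 hP)
  have h4 := fam_of_one h1 (k := 1) one_pos
  refine ⟨α, hα, G, h4, h2, fun h => h2.1 (h α hα G h4), fun h β hβ H hH => ?_⟩
  obtain ⟨h5, h6⟩ := fam_one hH
  rw [← cut_language h5]
  exact h3.2 h β hβ _ h6

theorem hard_case {k : ℕ} (hk : 0 < k) (hE : ¬ Easy k F) (hP : ¬ Planar k F) :
    ∃ (α : Type) (_ : Finite α) (G : LinearGrammar α), Fam k F G ∧
      (InL G.language ↔ ∀ (β : Type) (_ : Finite β) (H : LinearGrammar β), InL H.language) := by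
  rcases Nat.lt_or_ge 1 k with h1 | h1
  · obtain ⟨α, hα, G, h2, h3, h4⟩ := two_nonterminals (F := F) fun h => hE (Or.inl h)
    exact ⟨α, hα, G, ⟨by omega, h3⟩, h4⟩
  · have : k = 1 := by omega
    subst this
    obtain ⟨α, hα, G, h2, h3⟩ := general_case zero_notMem (mt degenerate_iff.1 hE)
      (mt planar_iff.1 hP)
    exact ⟨α, hα, G, fam_of_one h2 one_pos, h3⟩

end Pool.Agent.SNT
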