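import Pool.Agent.SNT.Sim

/-!
# SNT/Gen: linear languages reduce to the grammar with rules of the shapes `g` and `r`
-/

set_option autoImplicit false

namespace Pool.Agent.SNT

open Classical Pool.Agent.Helper38.LinL Pool.Agent.Helper38.LinL.LinearGrammar
open Pool.Agent.Helper75.Lin (DagStep mem_iff_dag nV Ed)
open Pool.Agent.Helper75.Lin4 (FL)

set_option linter.unusedSimpArgs false
set_option linter.unusedVariables false
set_option linter.unusedSectionVars false

section FL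

variable {α : Type} {Y : Type} [Cod Y] {β γ : Type}

theorem FL.rangeMap {L : List α → Y → ℕ} (hL : Fn L) {F : List α → Y × ℕ → β}
    (hF : ∀ b, FP fun w z => F w z = b) :
    FL fun w y => (List.range (L w y)).map fun i => F w (y, i) := by
  refine ⟨Helper75.Lin4.Fn.congr' hL fun w y => by simp, fun b => ?_⟩
  refine ((FP.lt Fn.id.snd (hL.comp Fn.id.fst)).and (hF b)).congr fun w z => ?_
  rw [List.getElem?_map]
  rcases Nat.lt_or_ge z.2 (L w z.1) with h | h
  · rw [List.getElem?_range h]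
    simp [h]
  · rw [List.getElem?_eq_none (by simpa using h)]
    have : ¬ z.2 < L w z.1 := by omega
    simp [this]

theorem FP.ty {N : List α → Y → ℕ} (hN : Fn N) {E : List α → Y × ℕ × ℕ → Prop} (hE : FP E)
    {i : List α → Y → ℕ} (hi : Fn i) (φ : Fk) :
    FP fun w y => ty (N w y) (fun p q => E w (y, p, q)) (i w y) φ := by
  have c : ∀ m, Fn fun (_ : List α) (_ : Y) => m := fun m => Fn.const m
  have hN1 := hN.add (c 1)
  have hd := hi.div hN1
  have hu := hd.div hN
  have hv := hd.mod hN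
  have hj := hi.mod hN1
  have hE' : FP fun w y => E w (y, i w y / (N w y + 1) / N w y, i w y / (N w y + 1) % N w y) :=
    hE.comp (Fn.id.pair (hu.pair hv))
  cases φ
  · exact (FP.lt hu hv).and (hE'.and (FP.eq hj (c 0)))
  · exact (FP.lt hu hv).and (hE'.and ((FP.le (c 1) hj).and
      (FP.lt ((hu.add hj).sub (c 1)) hv)))
  · exact (FP.lt hu hv).and (hE'.and ((FP.le (c 1) hj).and
      (FP.eq ((hu.add hj).sub (c 1)) hv)))

theorem Fn.cl {N i : List α → Y → ℕ} (hN : Fn N) (hi : Fn i) :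
    Fn fun w y => cl (N w y) (i w y) := by
  unfold SNT.cl
  have c : ∀ m, Fn fun (_ : List α) (_ : Y) => m := fun m => Fn.const m
  have hN1 := hN.add (c 1)
  exact ((hi.div hN1).div hN).add ((hi.mod hN1).sub (c 1))

theorem Fn.MM (r : ℕ × ℕ) {N : List α → Y → ℕ} (hN : Fn N) : Fn fun w y => MM r (N w y) := by
  unfold SNT.MM
  exact (((Fn.const 2).mul hN).mul (Fn.const _)).add (Fn.const 1)

theorem FP.mk1 (x y : ℕ) (r : ℕ × ℕ) {N : List α → Y → ℕ} (hN : Fn N)
    {E : List α → Y × ℕ × ℕ → Prop} (hE : FP E) (φ : Fk) :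
    FP fun w (z : Y × ℕ) => mk1 x y (SNT.MM r (N w z.1)) (N w z.1) (fun p q => E w (z.1, p, q))
      φ z.2 := by
  unfold SNT.mk1
  have hN' : Fn fun w (z : Y × ℕ) => N w z.1 := hN.comp Fn.id.fst
  have hN2 : Fn fun w (z : (Y × ℕ) × ℕ) => N w z.1.1 := hN.comp Fn.id.fst.fst
  have hi : Fn fun (w : List α) (z : (Y × ℕ) × ℕ) => z.2 := Fn.id.snd
  have hp : Fn fun (w : List α) (z : (Y × ℕ) × ℕ) => z.1.2 := Fn.id.fst.snd
  have hE2 : FP fun (w : List α) (z : ((Y × ℕ) × ℕ) × ℕ × ℕ) => E w (z.1.1.1, z.2.1, z.2.2) :=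
    hE.comp (g := fun (w : List α) (z : ((Y × ℕ) × ℕ) × ℕ × ℕ) => (z.1.1.1, z.2.1, z.2.2))
      (Fn.id.fst.fst.fst.pair (Fn.id.snd.fst.pair Fn.id.snd.snd))
  refine (FP.bex (b := fun w (z : Y × ℕ) => N w z.1 * N w z.1 * (N w z.1 + 1))
    (P := fun w (z : (Y × ℕ) × ℕ) =>
      SNT.ty (N w z.1.1) (fun p q => E w (z.1.1, p, q)) z.2 φ ∧
      z.2 * SNT.MM r (N w z.1.1) * x + SNT.cl (N w z.1.1) z.2 * y = z.1.2)
    ((hN'.mul hN').mul (hN'.add (Fn.const 1))) ?_).congr fun w z => Iff.rfl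
  exact (FP.ty hN2 hE2 hi φ).and (FP.eq (((hi.mul (Fn.MM r hN2)).mul (Fn.const x)).add
    ((Fn.cl hN2 hi).mul (Fn.const y))) hp)

theorem FP.marks {Q : Fk → List α → Y → Prop} (hQ : ∀ φ, FP (Q φ)) (b : Fg) :
    FP fun w y => (fun φ => decide (Q φ w y)) = b := by
  refine (FP.allFin (β := Fk) (P := fun φ w y => (Q φ w y ∧ b φ = true) ∨
    (¬ Q φ w y ∧ ¬ b φ = true)) fun φ => ((hQ φ).and (FP.constP _)).or
      ((hQ φ).not.and (FP.constP _))).congr fun w y => ?_
  constructor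
  · intro h φ
    rw [← h]
    by_cases hq : Q φ w y
    · exact Or.inl ⟨hq, by simp [hq]⟩
    · exact Or.inr ⟨hq, by simp [hq]⟩
  · intro h
    funext φ
    rcases h φ with ⟨h1, h2⟩ | ⟨h1, h2⟩
    · simp [h1, h2]
    · rw [Bool.not_eq_true] at h2
      simp [h1, h2]

theorem FL.wd (g r : ℕ × ℕ) {N : List α → Y → ℕ} (hN : Fn N) {E : List α → Y × ℕ × ℕ → Prop}
    (hE : FP E) :
    FL fun w y => wd (LX g r (N w y)) (LY g r (N w y)) (FX g r (N w y) fun p q => E w (y, p, q))
      (FY g r (N w y) fun p q => E w (y, p, q)) := by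
  unfold SNT.wd
  have hI : Fn fun w y => N w y * N w y * (N w y + 1) * SNT.MM r (N w y) :=
    ((hN.mul hN).mul (hN.add (Fn.const 1))).mul (Fn.MM r hN)
  have hX : Fn fun w y => LX g r (N w y) := by
    unfold LX
    exact (hI.mul (Fn.const _)).add ((hN.sub (Fn.const 1)).mul (Fn.const _))
  have hY : Fn fun w y => LY g r (N w y) := by
    unfold LY
    exact (hI.mul (Fn.const _)).add ((hN.sub (Fn.const 1)).mul (Fn.const _))
  have h1 := (FL.rangeMap hX (F := fun w (z : Y × ℕ) => FX g r (N w z.1)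
    (fun p q => E w (z.1, p, q)) z.2) fun b => FP.marks (fun φ => FP.mk1 g.1 r.1 r hN hE φ) b)
  have h2 := (FL.rangeMap hY (F := fun w (z : Y × ℕ) => FY g r (N w z.1)
    (fun p q => E w (z.1, p, q)) z.2) fun b => FP.marks (fun φ => FP.mk1 g.2 r.2 r hN hE φ) b)
  refine ((h1.map some).append ((FL.const [none]).append (h2.map some).reverse)).congr
    fun w y => ?_
  simp

/-- Reachability in acyclic graphs given by logarithmic space predicates. -/
theorem FP.dagB {g r : ℕ × ℕ} (g1 : 0 < g.1) (g2 : 0 < g.2) (hD : g.1 * r.2 ≠ g.2 * r.1)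
    (h : InL (GB g r).language) {N : List α → Y → ℕ} (hN : Fn N) (hN0 : ∀ w y, 0 < N w y)
    {E : List α → Y × ℕ × ℕ → Prop} (hE : FP E) :
    FP fun w y => Relation.ReflTransGen (DagStep (N w y) fun p q => E w (y, p, q)) 0
      (N w y - 1) := by
  have h1 := FL.wd g r hN hE
  exact (FP.inL_comp h h1.len h1.get).congr fun w y =>
    ((wd_mem g1 g2).trans (lang_iff (hN0 w y) g1 g2 hD)).symm

end FL

/-- If the language of `GB g r` is in `L` then so are all linear languages. -/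
theorem inL_of_GB {g r : ℕ × ℕ} (g1 : 0 < g.1) (g2 : 0 < g.2) (hD : g.1 * r.2 ≠ g.2 * r.1)
    {α : Type} {G : LinearGrammar α} (h : InL (GB g r).language) : InL G.language := by
  refine inL_of_FP _ (fun w y => Relation.ReflTransGen (DagStep (nV G w.length)
    fun p q => Ed G w p q) 0 (nV G w.length - 1)) ?_ fun w => mem_iff_dag.symm
  refine FP.dagB g1 g2 hD h (N := fun w y => nV G w.length) ?_ ?_
    (E := fun w (z : Unit × ℕ × ℕ) => Ed G w z.2.1 z.2.2) Pool.Agent.Helper75.Lin.FP.ed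
  · unfold nV
    exact ((Fn.lenSucc.mul Fn.lenSucc).mul (Fn.const _)).add (Fn.const 2)
  · intro w y
    unfold nV
    omega

end Pool.Agent.SNT
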