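import Pool.Agent.SNT.Axes

/-!
# SNT/Gram: a grammar with two nonterminals and rules of the shapes `g` and `r`
-/

set_option autoImplicit false

namespace Pool.Agent.SNT

open Pool.Agent.Helper38.LinL Pool.Agent.Helper38.LinL.LinearGrammar

/-- The marks. -/
inductive Fk : Type
  | U | R | D
  deriving DecidableEq, Fintype

/-- The letters except the letter in the middle: sets of marks. -/
abbrev Fg : Type := Fk → Bool

/-- The letters. -/
abbrev Al : Type := Option Fg

/-- The condition for the rules of the shape `g`. -/
def Cg (A B : Bool) (f f' : Fg) : Prop :=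
  (A = false ∧ B = false) ∨ (A = false ∧ B = true ∧ f Fk.U = true ∧ f' Fk.U = true) ∨
  (A = true ∧ B = true ∧ ¬ (f Fk.R = true ∧ f' Fk.R = true) ∧
    ¬ (f Fk.D = true ∧ f' Fk.D = true)) ∨
  (A = true ∧ B = false ∧ f Fk.D = true ∧ f' Fk.D = true)

/-- The rules. -/
def Rl (g r : ℕ × ℕ) (z : Bool × List Al × Bool × List Al) : Prop :=
  ∃ x y : List Fg, z.2.1 = x.map some ∧ z.2.2.2 = (y.map some).reverse ∧
    (((x.length, y.length) = g ∧ ∃ f f', x.head? = some f ∧ y.head? = some f' ∧
      Cg z.1 z.2.2.1 f f') ∨
    ((x.length, y.length) = r ∧ z.1 = true ∧ z.2.2.1 = true ∧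
      (∀ f, x.head? = some f → f Fk.R = true) ∧ ∀ f, y.head? = some f → f Fk.R = true))

theorem rl_finite (g r : ℕ × ℕ) : {z | Rl g r z}.Finite := by
  let m := g.1 + g.2 + r.1 + r.2
  have h1 : {l : List Al | l.length ≤ m}.Finite := List.finite_length_le Al m
  have h2 := Set.Finite.prod (Set.finite_univ (α := Bool)) (h1.prod
    (Set.Finite.prod (Set.finite_univ (α := Bool)) h1))
  refine h2.subset ?_
  rintro ⟨A, u, B, v⟩ h
  obtain ⟨x, y, hx, hy, h⟩ := h
  simp only at hx hy
  have h3 : u.length ≤ m ∧ v.length ≤ m := by
    have e1 : u.length = x.length := by rw [hx]; simp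
    have e2 : v.length = y.length := by rw [hy]; simp
    rcases h with h | h <;>
    · have e3 := congrArg Prod.fst h.1
      have e4 := congrArg Prod.snd h.1
      simp only at e3 e4
      simp only [m]
      omega
  simp [h3.1, h3.2]

/-- The grammar. -/
noncomputable def GB (g r : ℕ × ℕ) : LinearGrammar Al where
  N := Bool
  finN := inferInstance
  start := false
  rules := (rl_finite g r).toFinset
  term := {(false, [none])}

variable {g r : ℕ × ℕ}

theorem mem_rulesB {A B : Bool} {u v : List Al} :
    ((A, u, B, v) : Bool × List Al × Bool × List Al) ∈ (GB g r).rules ↔ Rl g r (A, u, B, v) := by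
  change ((A, u, B, v) : Bool × List Al × Bool × List Al) ∈ (rl_finite g r).toFinset ↔ _
  simp

theorem mem_termB {B : Bool} {t : List Al} :
    ((B, t) : Bool × List Al) ∈ (GB g r).term ↔ B = false ∧ t = [none] := by
  change ((B, t) : Bool × List Al) ∈ ({(false, [none])} : Finset (Bool × List Al)) ↔ _
  simp only [Finset.mem_singleton, Prod.mk.injEq]

/-- The configurations: `p` letters are read on the left and `q` on the right. -/
inductive Cf (g r : ℕ × ℕ) (fx fy : ℕ → Fg) (a b : ℕ) : Bool → ℕ → ℕ → Prop
  | init : Cf g r fx fy a b false 0 0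
  | gs {A B : Bool} {p q : ℕ} : Cf g r fx fy a b A p q → p + g.1 ≤ a → q + g.2 ≤ b →
      Cg A B (fx p) (fy q) → Cf g r fx fy a b B (p + g.1) (q + g.2)
  | rs {p q : ℕ} : Cf g r fx fy a b true p q → p + r.1 ≤ a → q + r.2 ≤ b →
      (0 < r.1 → fx p Fk.R = true) → (0 < r.2 → fy q Fk.R = true) →
      Cf g r fx fy a b true (p + r.1) (q + r.2)

/-- The word. -/
def wd (a b : ℕ) (fx fy : ℕ → Fg) : List Al :=
  ((List.range a).map fx).map some ++ none :: (((List.range b).map fy).map some).reverse

theorem range_split {f : ℕ → Fg} {x x' : List Fg}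
    (h : x ++ x' = (List.range (x ++ x').length).map f) :
    x = (List.range x.length).map f ∧ x' = (List.range x'.length).map fun i => f (x.length + i) := by
  rw [List.length_append, List.range_add, List.map_append, List.map_map] at h
  have h1 := List.append_inj h (by simp)
  exact ⟨h1.1, h1.2⟩

theorem range_head {f : ℕ → Fg} {n : ℕ} {z : Fg} (h : ((List.range n).map f).head? = some z) :
    z = f 0 := by
  cases n with
  | zero => simp at h
  | succ n =>
    rw [List.range_succ_eq_map] at h
    simpa using h.symm

theorem range_head' {f : ℕ → Fg} {n : ℕ} (h : 0 < n) :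
    ((List.range n).map f).head? = some (f 0) := by
  obtain ⟨m, rfl⟩ : ∃ m, n = m + 1 := ⟨n - 1, by omega⟩
  rw [List.range_succ_eq_map]
  simp

theorem cf_of_derives {A B : (GB g r).N} {u v : List Al} (h : (GB g r).Derives A u B v) :
    ∃ x y : List Fg, u = x.map some ∧ v = (y.map some).reverse ∧ ∀ (fx fy : ℕ → Fg) (a b : ℕ),
      x = (List.range x.length).map fx → y = (List.range y.length).map fy →
      x.length ≤ a → y.length ≤ b → A = false → Cf g r fx fy a b B x.length y.length := by
  induction h with
  | refl => exact ⟨[], [], rfl, rfl, fun fx fy a b _ _ _ _ hA => by subst hA; exact Cf.init⟩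
  | @step u B v u' C v' _ hr ih =>
    obtain ⟨x, y, rfl, rfl, h1⟩ := ih
    obtain ⟨x', y', h2, h3, h4⟩ := mem_rulesB.1 hr
    simp only at h2 h3 h4
    subst h2 h3
    refine ⟨x ++ x', y ++ y', by simp, by simp, ?_⟩
    intro fx fy a b hx hy ha hb hA
    obtain ⟨hx1, hx2⟩ := range_split hx
    obtain ⟨hy1, hy2⟩ := range_split hy
    rw [List.length_append] at ha hb ⊢
    rw [List.length_append]
    have h5 := h1 fx fy a b hx1 hy1 (by omega) (by omega) hA
    rcases h4 with ⟨h6, f, f', h7, h8, h9⟩ | ⟨h6, h7, h8, h9, h10⟩
    · have e1 : x'.length = g.1 := congrArg Prod.fst h6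
      have e2 : y'.length = g.2 := congrArg Prod.snd h6
      rw [hx2] at h7
      rw [hy2] at h8
      have e3 := range_head h7
      have e4 := range_head h8
      simp only [add_zero] at e3 e4
      subst e3 e4
      rw [e1, e2]
      exact Cf.gs h5 (by omega) (by omega) h9
    · have e1 : x'.length = r.1 := congrArg Prod.fst h6
      have e2 : y'.length = r.2 := congrArg Prod.snd h6
      subst h7 h8
      rw [e1, e2]
      refine Cf.rs h5 (by omega) (by omega) (fun h => ?_) (fun h => ?_)
      · refine h9 _ ?_
        rw [hx2, range_head' (by omega), add_zero]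
      · refine h10 _ ?_
        rw [hy2, range_head' (by omega), add_zero]

theorem derives_of_cf {fx fy : ℕ → Fg} {a b : ℕ} (hg1 : 0 < g.1) (hg2 : 0 < g.2) {s : Bool}
    {p q : ℕ} (h : Cf g r fx fy a b s p q) :
    (GB g r).Derives false (((List.range p).map fx).map some) s
      (((List.range q).map fy).map some).reverse := by
  induction h with
  | init => exact Derives.refl
  | @gs A B p q _ _ _ hc ih =>
    have h1 : Rl g r (A, ((List.range g.1).map fun i => fx (p + i)).map some, B,
        (((List.range g.2).map fun i => fy (q + i)).map some).reverse) := by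
      refine ⟨_, _, rfl, rfl, Or.inl ⟨by simp, fx p, fy q, ?_, ?_, hc⟩⟩
      · rw [range_head' hg1, add_zero]
      · rw [range_head' hg2, add_zero]
    have h2 := Derives.step ih (mem_rulesB.2 h1)
    rw [List.range_add, List.range_add]
    simpa [Function.comp_def] using h2
  | @rs p q _ _ _ hx hy ih =>
    have h1 : Rl g r (true, ((List.range r.1).map fun i => fx (p + i)).map some, true,
        (((List.range r.2).map fun i => fy (q + i)).map some).reverse) := by
      refine ⟨_, _, rfl, rfl, Or.inr ⟨by simp, rfl, rfl, fun f hf => ?_, fun f hf => ?_⟩⟩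
      · have e := range_head hf
        rw [e]
        simp only [add_zero]
        apply hx
        by_contra hc
        rw [show r.1 = 0 by omega] at hf
        simp at hf
      · have e := range_head hf
        rw [e]
        simp only [add_zero]
        apply hy
        by_contra hc
        rw [show r.2 = 0 by omega] at hf
        simp at hf
    have h2 := Derives.step ih (mem_rulesB.2 h1)
    rw [List.range_add, List.range_add]
    simpa [Function.comp_def] using h2

theorem none_split {x x' : List Fg} {y y' : List Al}
    (h : x.map some ++ none :: y = x'.map some ++ none :: y') : x = x' ∧ y = y' := by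
  induction x generalizing x' with
  | nil =>
    cases x' with
    | nil => simpa using h
    | cons c x' => simp at h
  | cons c x ih =>
    cases x' with
    | nil => simp at h
    | cons c' x' =>
      simp only [List.map_cons, List.cons_append, List.cons.injEq, Option.some.injEq] at h
      obtain ⟨h1, h2⟩ := ih h.2
      exact ⟨by rw [h.1, h1], h2⟩

theorem wd_mem {fx fy : ℕ → Fg} {a b : ℕ} (hg1 : 0 < g.1) (hg2 : 0 < g.2) :
    wd a b fx fy ∈ (GB g r).language ↔ Cf g r fx fy a b false a b := by
  constructor
  · rintro ⟨u, B, v, t, h1, h2, h3⟩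
    obtain ⟨rfl, rfl⟩ := mem_termB.1 h2
    obtain ⟨x, y, rfl, rfl, h4⟩ := cf_of_derives h1
    unfold wd at h3
    rw [List.append_assoc, List.singleton_append] at h3
    obtain ⟨h5, h6⟩ := none_split h3
    have h7 := List.reverse_injective h6
    have h8 : (List.range b).map fy = y :=
      List.map_injective_iff.2 (Option.some_injective _) h7
    have e1 : x.length = a := by rw [← h5]; simp
    have e2 : y.length = b := by rw [← h8]; simp
    have h9 := h4 fx fy a b (by rw [e1]; exact h5.symm) (by rw [e2]; exact h8.symm) e1.le e2.le rfl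
    rw [e1, e2] at h9
    exact h9
  · intro h
    refine ⟨_, _, _, [none], derives_of_cf hg1 hg2 h, mem_termB.2 ⟨rfl, rfl⟩, ?_⟩
    unfold wd
    simp

end Pool.Agent.SNT
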