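import Pool.Agent.SNT.Slot

/-!
# SNT/Lang: a grammar with two nonterminals and rules of the shapes `(a, 0)` and `(0, b)`
-/

set_option autoImplicit false

namespace Pool.Agent.SNT

open Blk
open Pool.Agent.Helper38.LinL Pool.Agent.Helper38.LinL.LinearGrammar
open Pool.Agent.Helper75.Lin4 (rp rp_succ rp_zero rp_succ')
open Pool.Agent.Helper75.Lin (DagStep)

/-- The letters. -/
inductive Ab : Type
  | L (c : LA) | R (y : RB) | M
  deriving DecidableEq, Fintype

/-- The grammar. -/
def GA (a b : ℕ) : LinearGrammar Ab where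
  N := Bool
  finN := inferInstance
  start := false
  rules := ((Finset.univ : Finset (LA × Bool)).biUnion fun z => (lf z.1 z.2).toFinset.image
      fun s => (z.2, List.replicate a (Ab.L z.1), s, [])) ∪
    ((Finset.univ : Finset (RB × Bool)).biUnion fun z => (rg z.1 z.2).toFinset.image
      fun s => (z.2, [], s, List.replicate b (Ab.R z.1)))
  term := {(false, [Ab.M])}

variable {a b : ℕ}

theorem mem_rulesA {A B : Bool} {u v : List Ab} :
    ((A, u, B, v) : Bool × List Ab × Bool × List Ab) ∈ (GA a b).rules ↔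
    (∃ c, u = List.replicate a (Ab.L c) ∧ B ∈ lf c A ∧ v = []) ∨
      ∃ y, u = [] ∧ B ∈ rg y A ∧ v = List.replicate b (Ab.R y) := by
  change ((A, u, B, v) : Bool × List Ab × Bool × List Ab) ∈
    (((Finset.univ : Finset (LA × Bool)).biUnion fun z => (lf z.1 z.2).toFinset.image
      fun s => (z.2, List.replicate a (Ab.L z.1), s, [])) ∪
    ((Finset.univ : Finset (RB × Bool)).biUnion fun z => (rg z.1 z.2).toFinset.image
      fun s => (z.2, [], s, List.replicate b (Ab.R z.1))) :
        Finset (Bool × List Ab × Bool × List Ab)) ↔ _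
  simp only [Finset.mem_union, Finset.mem_biUnion, Finset.mem_univ, true_and, Finset.mem_image,
    List.mem_toFinset, Prod.mk.injEq]
  constructor
  · rintro (⟨⟨c, s⟩, s', h, rfl, rfl, rfl, rfl⟩ | ⟨⟨y, s⟩, s', h, rfl, rfl, rfl, rfl⟩)
    · exact Or.inl ⟨c, rfl, h, rfl⟩
    · exact Or.inr ⟨y, rfl, h, rfl⟩
  · rintro (⟨c, rfl, h, rfl⟩ | ⟨y, rfl, h, rfl⟩)
    · exact Or.inl ⟨(c, A), B, h, rfl, rfl, rfl, rfl⟩
    · exact Or.inr ⟨(y, A), B, h, rfl, rfl, rfl, rfl⟩

theorem mem_termA {B : Bool} {t : List Ab} :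
    ((B, t) : Bool × List Ab) ∈ (GA a b).term ↔ B = false ∧ t = [Ab.M] := by
  change ((B, t) : Bool × List Ab) ∈ ({(false, [Ab.M])} : Finset (Bool × List Ab)) ↔ _
  simp only [Finset.mem_singleton, Prod.mk.injEq]

/-- Left words. -/
def fl (a : ℕ) (w : List LA) : List Ab := w.flatMap fun c => List.replicate a (Ab.L c)

/-- Right words. -/
def fr (b : ℕ) (s : List RB) : List Ab := s.flatMap fun y => List.replicate b (Ab.R y)

theorem rd_of_derivesA {A B : (GA a b).N} {u v : List Ab} (h : (GA a b).Derives A u B v) :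
    ∃ w s, u = fl a w ∧ v = (fr b s).reverse ∧ ∃ (s1 : Bool) (t1 : List RB), Rd w A s s1 t1 ∧
      Vr s1 t1 B [] := by
  induction h with
  | refl => exact ⟨[], [], rfl, rfl, A, [], ⟨rfl, rfl⟩, Vr.refl _ _⟩
  | @step u B v u' C v' _ hr ih =>
    obtain ⟨w, s, rfl, rfl, s1, t1, h1, h2⟩ := ih
    rcases mem_rulesA.1 hr with ⟨c, rfl, h3, rfl⟩ | ⟨y, rfl, h3, rfl⟩
    · refine ⟨w ++ [c], s, by simp [fl], by simp, C, [], ?_, Vr.refl _ _⟩
      rw [rd_append]
      exact ⟨s1, t1, h1, B, [], h2, C, h3, rfl, rfl⟩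
    · refine ⟨w, s ++ [y], by simp, by simp [fr], s1, t1 ++ [y], rd_extend h1, ?_⟩
      exact vr_trans (vr_extend h2) (Vr.step h3 (Vr.refl _ _))

theorem derives_of_vr {s s' : Bool} {t t' : List RB} (h : Vr s t s' t') :
    ∀ {A : Bool} {u v : List Ab}, (GA a b).Derives A u s v →
      ∃ t0, t = t0 ++ t' ∧ (GA a b).Derives A u s' ((fr b t0).reverse ++ v) := by
  induction h with
  | refl => intro A u v h1; exact ⟨[], by simp, by simpa [fr] using h1⟩
  | @step s s1 s' y t t' h1 _ ih =>
    intro A u v h2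
    have h3 := Derives.step h2 ((mem_rulesA (a := a) (b := b) (A := s) (B := s1) (u := [])
      (v := List.replicate b (Ab.R y))).2 (Or.inr ⟨y, rfl, h1, rfl⟩))
    obtain ⟨t0, rfl, h4⟩ := ih h3
    refine ⟨y :: t0, by simp, ?_⟩
    simpa [fr, List.append_assoc] using h4

theorem derives_of_rdA {w : List LA} : ∀ {s s' : Bool} {t t' : List RB}, Rd w s t s' t' →
    ∀ {A : Bool} {u v : List Ab}, (GA a b).Derives A u s v →
      ∃ t0, t = t0 ++ t' ∧ (GA a b).Derives A (u ++ fl a w) s' ((fr b t0).reverse ++ v) := by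
  induction w with
  | nil =>
    rintro s s' t t' ⟨rfl, rfl⟩ A u v h
    exact ⟨[], by simp, by simpa [fl, fr] using h⟩
  | cons c w ih =>
    rintro s s' t t' ⟨s1, t1, h1, s2, h2, h3⟩ A u v h
    obtain ⟨t0, rfl, h4⟩ := derives_of_vr h1 h
    have h5 := Derives.step h4 ((mem_rulesA (a := a) (b := b) (A := s1) (B := s2)
      (u := List.replicate a (Ab.L c)) (v := [])).2 (Or.inl ⟨c, rfl, h2, rfl⟩))
    obtain ⟨t2, rfl, h6⟩ := ih h3 h5
    refine ⟨t0 ++ t2, by simp, ?_⟩
    simpa [fl, fr, List.append_assoc] using h6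

theorem flat_inj {β γ : Type} {g : β → γ} (hg : Function.Injective g) {n : ℕ} (hn : 0 < n) :
    ∀ {l l' : List β}, (l.flatMap fun c => List.replicate n (g c)) =
      (l'.flatMap fun c => List.replicate n (g c)) → l = l' := by
  intro l
  induction l with
  | nil =>
    intro l' h
    cases l' with
    | nil => rfl
    | cons c l' =>
      have := congrArg List.length h
      simp at this
      omega
  | cons c l ih =>
    intro l' h
    cases l' with
    | nil =>
      have := congrArg List.length h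
      simp at this
      omega
    | cons c' l' =>
      simp only [List.flatMap_cons] at h
      have h1 := List.append_inj h (by simp)
      have h2 : g c = g c' := by
        have := List.replicate_right_injective (n := n) (by omega) h1.1
        exact this
      rw [hg h2, ih h1.2]

theorem split_uniqueA {x x' : List LA} {y y' : List Ab} (h : fl a x ++ Ab.M :: y = fl a x' ++ Ab.M :: y') :
    fl a x = fl a x' ∧ y = y' := by
  have key : ∀ (l l' : List Ab), Ab.M ∉ l → Ab.M ∉ l' → l ++ Ab.M :: y = l' ++ Ab.M :: y' →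
      l = l' ∧ y = y' := by
    intro l
    induction l with
    | nil =>
      intro l' _ h2 h3
      cases l' with
      | nil => simpa using h3
      | cons c l' =>
        simp only [List.nil_append, List.cons_append, List.cons.injEq] at h3
        exact absurd (List.mem_cons.2 (Or.inl h3.1)) h2
    | cons c l ih =>
      intro l' h1 h2 h3
      cases l' with
      | nil =>
        simp only [List.nil_append, List.cons_append, List.cons.injEq] at h3
        exact absurd (List.mem_cons.2 (Or.inl h3.1.symm)) h1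
      | cons c' l' =>
        simp only [List.cons_append, List.cons.injEq] at h3
        obtain ⟨h4, h5⟩ := ih l' (fun h => h1 (List.mem_cons_of_mem _ h))
          (fun h => h2 (List.mem_cons_of_mem _ h)) h3.2
        exact ⟨by rw [h3.1, h4], h5⟩
  have hM : ∀ z : List LA, Ab.M ∉ fl a z := by
    intro z hz
    unfold fl at hz
    rw [List.mem_flatMap] at hz
    obtain ⟨c, _, hc⟩ := hz
    have := List.eq_of_mem_replicate hc
    exact absurd this (by simp)
  exact key _ _ (hM _) (hM _) h

theorem mem_languageA (ha : 0 < a) (hb : 0 < b) {w : List LA} {s : List RB} :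
    fl a w ++ Ab.M :: (fr b s).reverse ∈ (GA a b).language ↔
      ∃ s1 t1, Rd w false s s1 t1 ∧ Vr s1 t1 false [] := by
  constructor
  · rintro ⟨u, B, v, t, h1, h2, h3⟩
    obtain ⟨rfl, rfl⟩ := mem_termA.1 h2
    obtain ⟨w', s', rfl, rfl, s1, t1, h4, h5⟩ := rd_of_derivesA h1
    rw [List.append_assoc, List.singleton_append] at h3
    obtain ⟨h6, h7⟩ := split_uniqueA h3
    have e1 : w = w' := flat_inj (fun c c' h => by simpa using h) ha h6
    have e2 : s = s' := flat_inj (fun c c' h => by simpa using h) hb (List.reverse_injective h7)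
    subst e1 e2
    exact ⟨s1, t1, h4, h5⟩
  · rintro ⟨s1, t1, h1, h2⟩
    obtain ⟨t0, e1, h3⟩ := derives_of_rdA (a := a) (b := b) h1 (Derives.refl (G := GA a b) (A := false))
    obtain ⟨t2, e2, h4⟩ := derives_of_vr h2 h3
    rw [List.append_nil] at e2
    subst e1 e2
    refine ⟨_, _, _, [Ab.M], h4, mem_termA.2 ⟨rfl, rfl⟩, ?_⟩
    simp [fr]

section word

/-- The text of a window with the block `D` at the place `x`. -/
def wn (τ x : ℕ) (D : Blk) : List RB :=
  rp x (bt V) ++ bt D ++ rp (τ - 1 - x) (bt V)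

theorem tx_add {f : ℕ → Blk} {a b : ℕ} : ∀ {P : ℕ},
    tx f P (a + b) = tx f P a ++ tx f (P + a) b := by
  induction a with
  | zero => intro P; simp [tx]
  | succ a ih =>
    intro P
    rw [show a + 1 + b = (a + b) + 1 by ring]
    simp only [tx, ih, List.append_assoc]
    rw [show P + 1 + a = P + (a + 1) by ring]

theorem tx_V {f : ℕ → Blk} {n : ℕ} : ∀ {P : ℕ}, (∀ i, i < n → f (P + i) = V) →
    tx f P n = rp n (bt V) := by
  induction n with
  | zero => intro P _; rfl
  | succ n ih =>
    intro P h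
    rw [rp_succ']
    show bt (f P) ++ tx f (P + 1) n = _
    rw [ih (fun i hi => by rw [show P + 1 + i = P + (i + 1) by ring]; exact h _ (by omega))]
    have := h 0 (by omega)
    rw [add_zero] at this
    rw [this]

theorem tx_window {τ K : ℕ} {mk : ℕ → ℕ} {kd : ℕ → Blk} {k : ℕ} (hk : k < K) (hm : mk k < τ) :
    tx (fb τ K mk kd) (k * τ) τ = wn τ (mk k) (kd k) := by
  have e : τ = mk k + (1 + (τ - 1 - mk k)) := by omega
  conv_lhs => rw [show tx (fb τ K mk kd) (k * τ) τ =
    tx (fb τ K mk kd) (k * τ) (mk k + (1 + (τ - 1 - mk k))) by rw [← e]]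
  rw [tx_add, tx_add]
  rw [tx_V (n := mk k) (fun i hi => by rw [fb_win (by omega) hk, if_neg (by omega)])]
  rw [tx_V (n := τ - 1 - mk k) (fun i hi => by
    rw [show k * τ + mk k + 1 + i = k * τ + (mk k + 1 + i) by ring,
      fb_win (by omega) hk, if_neg (by omega)])]
  unfold wn
  simp only [tx, fb_win hm hk, if_true, List.append_nil, List.append_assoc]

theorem tx_mul {f : ℕ → Blk} {c n : ℕ} :
    tx f 0 (n * c) = (List.range n).flatMap fun i => tx f (i * c) c := by
  induction n with
  | zero => simp [tx]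
  | succ n ih =>
    rw [List.range_succ, List.flatMap_append, ← ih, add_mul, one_mul, tx_add]
    simp

/-- The whole text. -/
def txt (N : ℕ) (E : ℕ → ℕ → Prop) [∀ p q, Decidable (E p q)] : List RB :=
  ((List.range (N * (N - 1))).flatMap fun k => wn (N + 4) (mkk N k) (kdk N E k)) ++
    rp (N + 4) (bt V)

/-- The whole left word. -/
def lft (N : ℕ) : List LA :=
  rp (N - 1) wA ++ rp (N * (N - 1)) (wT ++ rp (N + 2) wA) ++ rp (N + 4) wA

variable {N : ℕ} {E : ℕ → ℕ → Prop} [∀ p q, Decidable (E p q)]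

theorem txt_eq (hN : 0 < N) : St (fb (N + 4) (N * (N - 1)) (mkk N) (kdk N E))
    ((N * (N - 1) + 1) * (N + 4)) 0 = txt N E := by
  set τ := N + 4 with hτ
  set K := N * (N - 1) with hK
  have hm : ∀ k, mkk N k < τ := fun k => by
    have := mkk_le hN k
    omega
  unfold St
  rw [Nat.sub_zero, add_mul, one_mul, tx_add]
  unfold txt
  congr 1
  · rw [tx_mul]
    apply List.flatMap_congr
    intro i hi
    have hi' : i < K := List.mem_range.1 hi
    rw [tx_window hi' (hm _)]
  · apply tx_V
    intro i _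
    exact fb_end (by omega) (by omega)

/-- The word of the reduction. -/
def wrd (a b N : ℕ) (E : ℕ → ℕ → Prop) [∀ p q, Decidable (E p q)] : List Ab :=
  fl a (lft N) ++ Ab.M :: (fr b (txt N E)).reverse

theorem wrd_mem (ha : 0 < a) (hb : 0 < b) (hN : 0 < N) : wrd a b N E ∈ (GA a b).language ↔
    Relation.ReflTransGen (DagStep N E) 0 (N - 1) := by
  unfold wrd
  rw [mem_languageA ha hb, ← sl_final hN, ← txt_eq hN]
  have h1 := rd_all (D0 := N) (τ := N + 4) (K := N * (N - 1)) (S0 := N - 1)
    (mk := mkk N) (kd := kdk N E) (by omega) (by omega) mkk_pos (mkk_le hN) kdk_ne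
  rw [← h1]
  rfl

end word

end Pool.Agent.SNT
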