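import Pool.Agent.SNT.Gen
import Pool.Agent.Helper38.Shape.Main

/-!
# SNT/Main: grammars with several nonterminals and given shapes
-/

set_option autoImplicit false

namespace Pool.Agent.SNT

open Pool.Agent.Helper38.LinL Pool.Agent.Helper38.LinL.LinearGrammar Pool.Agent.Helper38.Shape

/-- All rules `A → u B v` of the grammar have shapes `(|u|, |v|)` in the set `F`. (There is no
condition on the rules `A → u`.) -/
def Shapes (F : Set (ℕ × ℕ)) {α : Type} (G : LinearGrammar α) : Prop :=
  ∀ A u B v, (A, u, B, v) ∈ G.rules → (u.length, v.length) ∈ F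

/-- All elements of `F` are on one line through the origin. -/
def Parallel (F : Set (ℕ × ℕ)) : Prop := ∀ p ∈ F, ∀ q ∈ F, p.1 * q.2 = p.2 * q.1

theorem inL_of_parallel {F : Set (ℕ × ℕ)} (hp : Parallel F) {α : Type} [Finite α]
    {G : LinearGrammar α} (hG : Shapes F G) : InL G.language := by
  have := G.finN
  refine inL_of_loops G fun A => Or.inr (Or.inr (Or.inl ⟨1, 1, Nat.card G.N, fun x y s => ?_⟩))
  set T := {t : G.N × List α × List α | t.2.1 <+: x ∧ t.2.2 <:+ y ∧
      1 * t.2.1.length + 1 * t.2.2.length = s ∧ G.Derives A t.2.1 t.1 t.2.2 ∧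
      ∃ u v, G.Derives t.1 u A v} with hT
  have hinj : Set.InjOn (fun t : G.N × List α × List α => t.1) T := by
    rintro ⟨B, u, v⟩ ⟨h1, h2, h3, h4, _⟩ ⟨B', u', v'⟩ ⟨h1', h2', h3', h4', _⟩ hB
    simp only [one_mul] at h1 h2 h3 h4 h1' h2' h3' h4' hB
    subst hB
    have h5 := par_two hp hG h4 h4'
    have h6 : u.length = u'.length := by
      have e1 : v.length = s - u.length := by omega
      have e2 : v'.length = s - u'.length := by omega
      rcases Nat.eq_zero_or_pos s with h0 | h0
      · omega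
      · have h7 : u.length * s = u'.length * s := by
          calc u.length * s = u.length * u'.length + u.length * v'.length := by
                rw [← h3', mul_add]
            _ = u.length * u'.length + v.length * u'.length := by rw [h5]
            _ = u'.length * s := by rw [← h3]; ring
        exact Nat.eq_of_mul_eq_mul_right h0 h7
    have h7 : v.length = v'.length := by omega
    have hu : u = u' := (List.prefix_of_prefix_length_le h1 h1' h6.le).eq_of_length h6
    have hv : v = v' := (List.suffix_of_suffix_length_le h2 h2' h7.le).eq_of_length h7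
    rw [hu, hv]
  have h1 : T.encard ≤ (Set.univ : Set G.N).encard :=
    Set.encard_le_encard_of_injOn (fun _ _ => Set.mem_univ _) hinj
  rwa [Set.encard_univ, ENat.card_eq_coe_natCard] at h1

theorem shapes_GB {F : Set (ℕ × ℕ)} {g r : ℕ × ℕ} (hg : g ∈ F) (hr : r ∈ F) :
    Shapes F (GB g r) := by
  intro A u B v h
  obtain ⟨x, y, h1, h2, h3⟩ := mem_rulesB.1 h
  simp only at h1 h2
  rw [h1, h2]
  simp only [List.length_map, List.length_reverse]
  rcases h3 with h3 | h3
  · rw [h3.1]; exact hg
  · rw [h3.1]; exact hr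

theorem shapes_GA {F : Set (ℕ × ℕ)} {a b : ℕ} (ha : (a, 0) ∈ F) (hb : (0, b) ∈ F) :
    Shapes F (GA a b) := by
  intro A u B v h
  rcases mem_rulesA.1 h with ⟨c, rfl, _, rfl⟩ | ⟨y, rfl, _, rfl⟩
  · simpa using ha
  · simpa using hb

theorem card_GA {a b : ℕ} : Nat.card (GA a b).N = 2 := by
  show Nat.card Bool = 2
  simp

theorem card_GB {g r : ℕ × ℕ} : Nat.card (GB g r).N = 2 := by
  show Nat.card Bool = 2
  simp

theorem two_nonterminals {F : Set (ℕ × ℕ)} (hF : ¬ Parallel F) :
    ∃ (α : Type) (_ : Finite α) (G : LinearGrammar α), Nat.card G.N = 2 ∧ Shapes F G ∧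
      (InL G.language ↔ ∀ (β : Type) (_ : Finite β) (H : LinearGrammar β), InL H.language) := by
  unfold Parallel at hF
  push Not at hF
  obtain ⟨p, hp, q, hq, hpq⟩ := hF
  have key : ∀ g ∈ F, ∀ r ∈ F, 0 < g.1 → 0 < g.2 → g.1 * r.2 ≠ g.2 * r.1 →
      ∃ (α : Type) (_ : Finite α) (G : LinearGrammar α), Nat.card G.N = 2 ∧ Shapes F G ∧
      (InL G.language ↔ ∀ (β : Type) (_ : Finite β) (H : LinearGrammar β), InL H.language) :=
    fun g hg r hr g1 g2 hD => ⟨Al, inferInstance, GB g r, card_GB, shapes_GB hg hr,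
      fun h _ _ _ => inL_of_GB g1 g2 hD h, fun h => h _ inferInstance _⟩
  have key2 : ∀ a b, (a, 0) ∈ F → (0, b) ∈ F → 0 < a → 0 < b →
      ∃ (α : Type) (_ : Finite α) (G : LinearGrammar α), Nat.card G.N = 2 ∧ Shapes F G ∧
      (InL G.language ↔ ∀ (β : Type) (_ : Finite β) (H : LinearGrammar β), InL H.language) :=
    fun a b ha hb a0 b0 => ⟨Ab, inferInstance, GA a b, card_GA, shapes_GA ha hb,
      fun h _ _ _ => inL_of_GA a0 b0 h, fun h => h _ inferInstance _⟩
  obtain ⟨p1, p2⟩ := p
  obtain ⟨q1, q2⟩ := q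
  simp only at hpq
  rcases Nat.eq_zero_or_pos p1 with h1 | h1
  · subst h1
    rw [zero_mul] at hpq
    have h2 : 0 < p2 := Nat.pos_of_ne_zero fun h => hpq (by rw [h, zero_mul])
    have h3 : 0 < q1 := Nat.pos_of_ne_zero fun h => hpq (by rw [h, mul_zero])
    rcases Nat.eq_zero_or_pos q2 with h4 | h4
    · subst h4
      exact key2 q1 p2 hq hp h3 h2
    · refine key _ hq _ hp h3 h4 ?_
      simp only
      rw [mul_zero]
      exact (Nat.mul_pos h3 h2).ne'
  · rcases Nat.eq_zero_or_pos p2 with h2 | h2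
    · subst h2
      rw [zero_mul] at hpq
      have h3 : 0 < q2 := Nat.pos_of_ne_zero fun h => hpq (by rw [h, mul_zero])
      rcases Nat.eq_zero_or_pos q1 with h4 | h4
      · subst h4
        exact key2 p1 q2 hp hq h1 h3
      · refine key _ hq _ hp h4 h3 ?_
        simp only
        rw [mul_zero]
        exact (Nat.mul_pos h3 h1).ne
    · exact key _ hp _ hq h1 h2 hpq

end Pool.Agent.SNT
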