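import Mathlib

/-!
# SNT/Read: reading blocks with two states

Letters of the left alphabet `LA` and of the right alphabet `RB` act on the two states
`false` (the nonterminal `S`) and `true` (the nonterminal `T`). `Vr` reads right letters, `Rd`
reads a left word, any number of right letters being read before each left letter.
-/

set_option autoImplicit false

namespace Pool.Agent.SNT

/-- Left letters. -/
inductive LA : Type
  | l1 | l2 | l3 | l4 | l6
  deriving DecidableEq, Fintype

/-- Right letters. -/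
inductive RB : Type
  | r1 | r2 | r4 | ra
  deriving DecidableEq, Fintype

/-- The states after reading a left letter. -/
def lf : LA → Bool → List Bool
  | LA.l1, false => [false]
  | LA.l1, true => []
  | LA.l2, false => [true]
  | LA.l2, true => []
  | LA.l3, false => [false, true]
  | LA.l3, true => []
  | LA.l4, false => []
  | LA.l4, true => [false]
  | LA.l6, false => [true]
  | LA.l6, true => [false]

/-- The states after reading a right letter. -/
def rg : RB → Bool → List Bool
  | RB.r1, false => [false]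
  | RB.r1, true => []
  | RB.r2, false => [true]
  | RB.r2, true => []
  | RB.r4, false => []
  | RB.r4, true => [false]
  | RB.ra, _ => [true]

/-- Reading right letters only. -/
inductive Vr : Bool → List RB → Bool → List RB → Prop
  | refl (s : Bool) (t : List RB) : Vr s t s t
  | step {s s1 s' : Bool} {y : RB} {t t' : List RB} : s1 ∈ rg y s → Vr s1 t s' t' →
      Vr s (y :: t) s' t'

/-- Reading a left word. -/
def Rd : List LA → Bool → List RB → Bool → List RB → Prop
  | [], s, t, s', t' => s' = s ∧ t' = t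
  | c :: w, s, t, s', t' => ∃ s1 t1, Vr s t s1 t1 ∧ ∃ s2 ∈ lf c s1, Rd w s2 t1 s' t'

theorem rd_append {w1 w2 : List LA} : ∀ {s s' : Bool} {t t' : List RB},
    Rd (w1 ++ w2) s t s' t' ↔ ∃ s1 t1, Rd w1 s t s1 t1 ∧ Rd w2 s1 t1 s' t' := by
  induction w1 with
  | nil =>
    intro s s' t t'
    simp [Rd]
  | cons c w ih =>
    intro s s' t t'
    simp only [List.cons_append, Rd, ih]
    constructor
    · rintro ⟨s1, t1, h1, s2, h2, s3, t3, h3, h4⟩
      exact ⟨s3, t3, ⟨s1, t1, h1, s2, h2, h3⟩, h4⟩
    · rintro ⟨s3, t3, ⟨s1, t1, h1, s2, h2, h3⟩, h4⟩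
      exact ⟨s1, t1, h1, s2, h2, s3, t3, h3, h4⟩

theorem vr_iff {s s' : Bool} {t t' : List RB} : Vr s t s' t' ↔
    (s' = s ∧ t' = t) ∨ ∃ y t1 s1, t = y :: t1 ∧ s1 ∈ rg y s ∧ Vr s1 t1 s' t' := by
  constructor
  · intro h
    cases h with
    | refl => exact Or.inl ⟨rfl, rfl⟩
    | step h1 h2 => exact Or.inr ⟨_, _, _, rfl, h1, h2⟩
  · rintro (⟨rfl, rfl⟩ | ⟨y, t1, s1, rfl, h1, h2⟩)
    · exact Vr.refl _ _
    · exact Vr.step h1 h2

theorem vr_nil {s s' : Bool} {t' : List RB} : Vr s [] s' t' ↔ s' = s ∧ t' = [] := by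
  rw [vr_iff]
  constructor
  · rintro (h | ⟨y, t1, s1, h, _⟩)
    · exact h
    · simp at h
  · exact Or.inl

theorem vr_cons {s s' : Bool} {y : RB} {t t' : List RB} : Vr s (y :: t) s' t' ↔
    (s' = s ∧ t' = y :: t) ∨ ∃ s1 ∈ rg y s, Vr s1 t s' t' := by
  rw [vr_iff]
  constructor
  · rintro (h | ⟨y1, t1, s1, h, h1, h2⟩)
    · exact Or.inl h
    · rw [List.cons.injEq] at h
      obtain ⟨rfl, rfl⟩ := h
      exact Or.inr ⟨s1, h1, h2⟩
  · rintro (h | ⟨s1, h1, h2⟩)
    · exact Or.inl h
    · exact Or.inr ⟨y, t, s1, rfl, h1, h2⟩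

theorem vr_trans {s s1 s2 : Bool} {t t1 t2 : List RB} (h : Vr s t s1 t1) (h' : Vr s1 t1 s2 t2) :
    Vr s t s2 t2 := by
  induction h with
  | refl => exact h'
  | step h1 _ ih => exact Vr.step h1 (ih h')

theorem vr_extend {s s' : Bool} {t t' r : List RB} (h : Vr s t s' t') :
    Vr s (t ++ r) s' (t' ++ r) := by
  induction h with
  | refl => exact Vr.refl _ _
  | step h1 _ ih => exact Vr.step h1 ih

theorem rd_extend {w : List LA} {r : List RB} : ∀ {s s' : Bool} {t t' : List RB},
    Rd w s t s' t' → Rd w s (t ++ r) s' (t' ++ r) := by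
  induction w with
  | nil =>
    rintro s s' t t' ⟨rfl, rfl⟩
    exact ⟨rfl, rfl⟩
  | cons c w ih =>
    rintro s s' t t' ⟨s1, t1, h1, s2, h2, h3⟩
    exact ⟨s1, t1 ++ r, vr_extend h1, s2, h2, ih h3⟩

/-- All configurations reachable by reading right letters of a prefix. -/
def vc : Bool → List RB → List (Bool × List RB)
  | s, [] => [(s, [])]
  | s, y :: t => (s, y :: t) :: (rg y s).flatMap fun s1 => vc s1 t

theorem vc_spec {pre : List RB} : ∀ {s : Bool}, (∀ z ∈ vc s pre, z.2 ≠ []) →
    ∀ {rest t' : List RB} {s' : Bool}, (Vr s (pre ++ rest) s' t' ↔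
      ∃ z ∈ vc s pre, s' = z.1 ∧ t' = z.2 ++ rest) := by
  induction pre with
  | nil =>
    intro s h
    exact absurd rfl (h (s, []) (by simp [vc]))
  | cons y t ih =>
    intro s h rest t' s'
    rw [List.cons_append, vr_cons]
    simp only [vc, List.mem_cons, List.mem_flatMap, exists_eq_or_imp, List.cons_append]
    apply or_congr Iff.rfl
    constructor
    · rintro ⟨s1, h1, h2⟩
      have h3 : ∀ z ∈ vc s1 t, z.2 ≠ [] := fun z hz => h z (by
        simp only [vc, List.mem_cons, List.mem_flatMap]
        exact Or.inr ⟨s1, h1, hz⟩)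
      obtain ⟨z, hz, h4⟩ := (ih h3).1 h2
      exact ⟨z, ⟨s1, h1, hz⟩, h4⟩
    · rintro ⟨z, ⟨s1, h1, hz⟩, h4⟩
      have h3 : ∀ z ∈ vc s1 t, z.2 ≠ [] := fun z hz => h z (by
        simp only [vc, List.mem_cons, List.mem_flatMap]
        exact Or.inr ⟨s1, h1, hz⟩)
      exact ⟨s1, h1, (ih h3).2 ⟨z, hz, h4⟩⟩

/-- Concatenation of optional lists. -/
def bindAll {β : Type} : List (Option (List β)) → Option (List β)
  | [] => some []
  | o :: l => o.bind fun a => (bindAll l).bind fun b => some (a ++ b)

theorem bindAll_spec {β γ : Type} {f : γ → Option (List β)} {l : List γ} : ∀ {L : List β},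
    bindAll (l.map f) = some L → (∀ c ∈ l, ∃ a, f c = some a) ∧
      ∀ x, x ∈ L ↔ ∃ c ∈ l, ∃ a, f c = some a ∧ x ∈ a := by
  induction l with
  | nil =>
    intro L h
    simp only [List.map_nil, bindAll, Option.some.injEq] at h
    subst h
    simp
  | cons c l ih =>
    intro L h
    simp only [List.map_cons, bindAll] at h
    rw [Option.bind_eq_some_iff] at h
    obtain ⟨a, ha, h⟩ := h
    rw [Option.bind_eq_some_iff] at h
    obtain ⟨b, hb, h⟩ := h
    simp only [Option.some.injEq] at h
    subst h
    obtain ⟨h1, h2⟩ := ih hb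
    constructor
    · intro d hd
      rcases List.mem_cons.1 hd with rfl | hd
      · exact ⟨a, ha⟩
      · exact h1 d hd
    · intro x
      rw [List.mem_append, h2]
      constructor
      · rintro (h | ⟨d, hd, e, he, hx⟩)
        · exact ⟨c, List.mem_cons_self, a, ha, h⟩
        · exact ⟨d, List.mem_cons_of_mem _ hd, e, he, hx⟩
      · rintro ⟨d, hd, e, he, hx⟩
        rcases List.mem_cons.1 hd with rfl | hd
        · rw [ha, Option.some.injEq] at he
          subst he
          exact Or.inl hx
        · exact Or.inr ⟨d, hd, e, he, hx⟩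

/-- The possible configurations after reading `w` from the prefix, and `none` if the prefix may
be too short. -/
def loc : List LA → Bool → List RB → Option (List (Bool × List RB))
  | [], s, pre => some [(s, pre)]
  | c :: w, s, pre => if (vc s pre).any (fun z => z.2.isEmpty) then none else
      bindAll (((vc s pre).flatMap fun z => (lf c z.1).map fun s2 => (s2, z.2)).map
        fun z => loc w z.1 z.2)

theorem loc_spec {w : List LA} : ∀ {s : Bool} {pre : List RB} {L : List (Bool × List RB)},
    loc w s pre = some L → ∀ {rest t' : List RB} {s' : Bool},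
      (Rd w s (pre ++ rest) s' t' ↔ ∃ l ∈ L, s' = l.1 ∧ t' = l.2 ++ rest) := by
  induction w with
  | nil =>
    intro s pre L h rest t' s'
    simp only [loc, Option.some.injEq] at h
    subst h
    simp [Rd]
  | cons c w ih =>
    intro s pre L h rest t' s'
    unfold loc at h
    split_ifs at h with h0
    have h1 : ∀ z ∈ vc s pre, z.2 ≠ [] := by
      intro z hz hz2
      apply h0
      rw [List.any_eq_true]
      exact ⟨z, hz, by rw [hz2]; rfl⟩
    obtain ⟨h2, h3⟩ := bindAll_spec h
    simp only [Rd]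
    constructor
    · rintro ⟨s1, t1, h4, s2, h5, h6⟩
      obtain ⟨z, hz, rfl, rfl⟩ := (vc_spec h1).1 h4
      have hm : (s2, z.2) ∈ (vc s pre).flatMap fun z => (lf c z.1).map fun s2 => (s2, z.2) := by
        rw [List.mem_flatMap]
        exact ⟨z, hz, List.mem_map.2 ⟨s2, h5, rfl⟩⟩
      obtain ⟨a, ha⟩ := h2 _ hm
      obtain ⟨l, hl, h7⟩ := (ih ha).1 h6
      exact ⟨l, (h3 l).2 ⟨_, hm, a, ha, hl⟩, h7⟩
    · rintro ⟨l, hl, h7⟩
      obtain ⟨y, hm, a, ha, hla⟩ := (h3 l).1 hl
      have h6 := (ih ha).2 ⟨l, hla, h7⟩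
      rw [List.mem_flatMap] at hm
      obtain ⟨z, hz, hy⟩ := hm
      obtain ⟨s2, h5, rfl⟩ := List.mem_map.1 hy
      exact ⟨z.1, z.2 ++ rest, (vc_spec h1).2 ⟨z, hz, rfl, rfl⟩, s2, h5, h6⟩

/-- Certificate: reading `w` from `pre` in the state `false` leads exactly to the targets, in the
state `false`. -/
def chk (w : List LA) (pre : List RB) (T : List (List RB)) : Bool :=
  match loc w false pre with
  | some L => L.all (fun l => decide (l.1 = false ∧ l.2 ∈ T)) &&
      T.all (fun l => decide ((false, l) ∈ L))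
  | none => false

theorem chk_spec {w : List LA} {pre : List RB} {T : List (List RB)} (h : chk w pre T = true)
    {rest t' : List RB} {s' : Bool} :
    Rd w false (pre ++ rest) s' t' ↔ s' = false ∧ ∃ l ∈ T, t' = l ++ rest := by
  unfold chk at h
  cases hL : loc w false pre with
  | none => rw [hL] at h; simp at h
  | some L =>
    rw [hL] at h
    simp only [Bool.and_eq_true, List.all_eq_true, decide_eq_true_eq] at h
    rw [loc_spec hL]
    constructor
    · rintro ⟨l, h1, h2, h3⟩
      exact ⟨h2.trans (h.1 l h1).1, l.2, (h.1 l h1).2, h3⟩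
    · rintro ⟨rfl, l, h1, h2⟩
      exact ⟨(false, l), h.2 l h1, rfl, h2⟩

/-- The three blocks. -/
inductive Blk : Type
  | V | W | U
  deriving DecidableEq, Fintype

open Blk

/-- The text of a block. -/
def bt : Blk → List RB
  | V => [RB.r1, RB.r2]
  | W => [RB.r1, RB.r4, RB.r2]
  | U => [RB.r1, RB.r4, RB.ra]

/-- The text of a list of blocks. -/
def ft (l : List Blk) : List RB := l.flatMap bt

/-- The word passing one block. -/
def wA : List LA := [LA.l3, LA.l1, LA.l4]

/-- The tick. -/
def wT : List LA := [LA.l6, LA.l2, LA.l4, LA.l4]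

theorem idle_cert : ∀ b b' : Blk, chk wA (bt b ++ bt b') [bt b'] = true := by decide

theorem tickW_cert : chk wT (ft [W, V, V, V]) [ft [V, V, V]] = true := by decide

theorem tickU_cert : chk wT (ft [U, V, V, V]) [ft [V, V, V], ft [V, V]] = true := by decide

theorem tickB_cert : ∀ D : Blk, D ≠ V → chk wT (ft [V, D, V, V]) [ft [V]] = true := by decide

theorem tickV_cert : ∀ D : Blk, chk wT (ft [V, V, D, V]) [ft [D, V]] = true ∧
    chk wT (ft [V, V, V, D]) [ft [V, D]] = true := by decide

/-- All configurations after reading a left word. -/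
def ex : List LA → Bool → List RB → List (Bool × List RB)
  | [], s, t => [(s, t)]
  | c :: w, s, t => (vc s t).flatMap fun z => (lf c z.1).flatMap fun s2 => ex w s2 z.2

theorem vr_iff_vc {t : List RB} : ∀ {s s' : Bool} {t' : List RB},
    Vr s t s' t' ↔ (s', t') ∈ vc s t := by
  induction t with
  | nil =>
    intro s s' t'
    rw [vr_nil]
    simp [vc]
  | cons y t ih =>
    intro s s' t'
    rw [vr_cons]
    simp only [vc, List.mem_cons, List.mem_flatMap, Prod.mk.injEq, ih]

theorem rd_iff_ex {w : List LA} : ∀ {s s' : Bool} {t t' : List RB},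
    Rd w s t s' t' ↔ (s', t') ∈ ex w s t := by
  induction w with
  | nil =>
    intro s s' t t'
    simp [Rd, ex]
  | cons c w ih =>
    intro s s' t t'
    simp only [Rd, ex, List.mem_flatMap, vr_iff_vc, ih]
    constructor
    · rintro ⟨s1, t1, h1, s2, h2, h3⟩
      exact ⟨(s1, t1), h1, s2, h2, h3⟩
    · rintro ⟨z, h1, s2, h2, h3⟩
      exact ⟨z.1, z.2, h1, s2, h2, h3⟩

/-- Reading the idle word from the last block. -/
theorem last_idle {s' : Bool} {t' : List RB} : Rd wA false (bt V) s' t' ↔
    s' = false ∧ t' = [] := by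
  rw [rd_iff_ex]
  have h1 : ∀ z ∈ ex wA false (bt V), z = (false, []) := by decide
  have h2 : (false, []) ∈ ex wA false (bt V) := by decide
  constructor
  · intro h
    have := h1 _ h
    rwa [Prod.mk.injEq] at this
  · rintro ⟨rfl, rfl⟩
    exact h2

/-- Nothing can be read by the idle word from the empty text. -/
theorem empty_idle {s' : Bool} {t' : List RB} : ¬ Rd wA false [] s' t' := by
  rw [rd_iff_ex]
  have : ex wA false [] = [] := by decide
  rw [this]
  simp

end Pool.Agent.SNT
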