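import Pool.Agent.SNT.Gram

/-!
# SNT/Run: simulating reachability in acyclic graphs by tokens and a traveller
-/

set_option autoImplicit false

namespace Pool.Agent.SNT

open Relation
open Pool.Agent.Helper75.Lin (DagStep)

/-- The time between events. -/
def MM (r : ℕ × ℕ) (N : ℕ) : ℕ := 2 * N * (r.1 + r.2) + 1

/-- The type of the event `i`. -/
def ty (N : ℕ) (E : ℕ → ℕ → Prop) (i : ℕ) : Fk → Prop
  | Fk.U => i / (N + 1) / N < i / (N + 1) % N ∧ E (i / (N + 1) / N) (i / (N + 1) % N) ∧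
      i % (N + 1) = 0
  | Fk.R => i / (N + 1) / N < i / (N + 1) % N ∧ E (i / (N + 1) / N) (i / (N + 1) % N) ∧
      1 ≤ i % (N + 1) ∧ i / (N + 1) / N + i % (N + 1) - 1 < i / (N + 1) % N
  | Fk.D => i / (N + 1) / N < i / (N + 1) % N ∧ E (i / (N + 1) / N) (i / (N + 1) % N) ∧
      1 ≤ i % (N + 1) ∧ i / (N + 1) / N + i % (N + 1) - 1 = i / (N + 1) % N

/-- The class of the event `i`. -/
def cl (N i : ℕ) : ℕ := i / (N + 1) / N + (i % (N + 1) - 1)

/-- The marks in the coordinate with the steps `α`, `γ`. -/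
def mk1 (α γ M N : ℕ) (E : ℕ → ℕ → Prop) (φ : Fk) (p : ℕ) : Prop :=
  ∃ i, i < N * N * (N + 1) ∧ ty N E i φ ∧ i * M * α + cl N i * γ = p

section arith

variable {α γ N M : ℕ}

theorem near {n k i k' : ℕ} (hα : 0 < α) (hγ : 2 * N * γ < M) (hk : k ≤ N) (hk' : k' ≤ N)
    (h : n * α + k * γ = i * M * α + k' * γ) : 2 * n < 2 * (i * M) + M ∧ 2 * (i * M) < 2 * n + M := by
  have h1 : k * γ ≤ N * γ := Nat.mul_le_mul_right _ hk
  have h2 : k' * γ ≤ N * γ := Nat.mul_le_mul_right _ hk'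
  have h3 : 2 * (N * γ) < M := by rw [← mul_assoc]; exact hγ
  constructor
  · by_contra hc
    push Not at hc
    have h4 : (2 * (i * M) + M) * α ≤ 2 * n * α := Nat.mul_le_mul_right _ hc
    have h5 : M * 1 ≤ M * α := Nat.mul_le_mul_left _ hα
    have h6 : (2 * (i * M) + M) * α = 2 * (i * M * α) + M * α := by ring
    have h7 : 2 * n * α = 2 * (n * α) := by ring
    omega
  · by_contra hc
    push Not at hc
    have h4 : (2 * n + M) * α ≤ 2 * (i * M) * α := Nat.mul_le_mul_right _ hc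
    have h5 : M * 1 ≤ M * α := Nat.mul_le_mul_left _ hα
    have h6 : (2 * n + M) * α = 2 * (n * α) + M * α := by ring
    have h7 : 2 * (i * M) * α = 2 * (i * M * α) := by ring
    omega

theorem near_eq {n i i' : ℕ} (h : 2 * n < 2 * (i * M) + M ∧ 2 * (i * M) < 2 * n + M)
    (h' : 2 * n < 2 * (i' * M) + M ∧ 2 * (i' * M) < 2 * n + M) : i = i' := by
  have key : ∀ x y : ℕ, 2 * n < 2 * (x * M) + M → 2 * (y * M) < 2 * n + M → y ≤ x := by
    intro x y h1 h2
    by_contra hc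
    push Not at hc
    have : (x + 1) * M ≤ y * M := Nat.mul_le_mul_right _ hc
    have e : (x + 1) * M = x * M + M := by ring
    omega
  exact le_antisymm (key i' i h'.1 h.2) (key i i' h.1 h'.2)

end arith

section loc

variable {g r : ℕ × ℕ} {N : ℕ} {E : ℕ → ℕ → Prop}

theorem hM1 : 2 * N * r.1 < MM r N := by
  unfold MM
  have : 2 * N * (r.1 + r.2) = 2 * N * r.1 + 2 * N * r.2 := by ring
  omega

theorem hM2 : 2 * N * r.2 < MM r N := by
  unfold MM
  have : 2 * N * (r.1 + r.2) = 2 * N * r.1 + 2 * N * r.2 := by ring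
  omega

theorem MM_pos : 0 < MM r N := by unfold MM; omega

theorem locate {n k i k1 i' k2 : ℕ} (g1 : 0 < g.1) (g2 : 0 < g.2) (hD : g.1 * r.2 ≠ g.2 * r.1)
    (hk : k ≤ N) (hk1 : k1 ≤ N) (hk2 : k2 ≤ N) (hcl : i = i' → k1 = k2)
    (h1 : n * g.1 + k * r.1 = i * MM r N * g.1 + k1 * r.1)
    (h2 : n * g.2 + k * r.2 = i' * MM r N * g.2 + k2 * r.2) :
    i = i' ∧ n = i * MM r N ∧ k = k1 := by
  have a1 := near g1 hM1 hk hk1 h1
  have a2 := near g2 hM2 hk hk2 h2
  have e := near_eq a1 a2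
  subst e
  have e2 := hcl rfl
  subst e2
  have b1 : ((n : ℤ) - i * MM r N) * g.1 = (k1 - k) * r.1 := by
    have : (n : ℤ) * g.1 + k * r.1 = i * MM r N * g.1 + k1 * r.1 := by exact_mod_cast h1
    linarith
  have b2 : ((n : ℤ) - i * MM r N) * g.2 = (k1 - k) * r.2 := by
    have : (n : ℤ) * g.2 + k * r.2 = i * MM r N * g.2 + k1 * r.2 := by exact_mod_cast h2
    linarith
  have hD' : (g.1 : ℤ) * r.2 - g.2 * r.1 ≠ 0 := by
    intro h
    apply hD
    have : (g.1 : ℤ) * r.2 = g.2 * r.1 := by linarith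
    exact_mod_cast this
  have b3 : ((n : ℤ) - i * MM r N) * (g.1 * r.2 - g.2 * r.1) = 0 := by
    have : ((n : ℤ) - i * MM r N) * (g.1 * r.2 - g.2 * r.1) =
      (((n : ℤ) - i * MM r N) * g.1) * r.2 - (((n : ℤ) - i * MM r N) * g.2) * r.1 := by ring
    rw [this, b1, b2]
    ring
  have b4 := (mul_eq_zero.1 b3).resolve_right hD'
  have b5 : n = i * MM r N := by
    have : (n : ℤ) = i * MM r N := by linarith
    exact_mod_cast this
  refine ⟨rfl, b5, ?_⟩
  have b6 : ((k1 : ℤ) - k) * (g.1 * r.2 - g.2 * r.1) = 0 := by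
    have : ((k1 : ℤ) - k) * (g.1 * r.2 - g.2 * r.1) =
      g.1 * ((k1 - k) * r.2) - g.2 * ((k1 - k) * r.1) := by ring
    rw [this, ← b1, ← b2]
    ring
  have b7 := (mul_eq_zero.1 b6).resolve_right hD'
  omega

theorem cl_lt {i : ℕ} {φ : Fk} (hN : 0 < N) (h : ty N E i φ) : cl N i < N := by
  have h1 : i / (N + 1) % N < N := Nat.mod_lt _ hN
  unfold cl
  cases φ <;>
  · unfold ty at h
    obtain ⟨a1, a2, a3⟩ := h
    omega

/-- Both marks. -/
theorem both {n k : ℕ} {φ : Fk} (hN : 0 < N) (g1 : 0 < g.1) (g2 : 0 < g.2)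
    (hD : g.1 * r.2 ≠ g.2 * r.1) (hk : k ≤ N)
    (h1 : mk1 g.1 r.1 (MM r N) N E φ (n * g.1 + k * r.1))
    (h2 : mk1 g.2 r.2 (MM r N) N E φ (n * g.2 + k * r.2)) :
    ∃ i, i < N * N * (N + 1) ∧ ty N E i φ ∧ n = i * MM r N ∧ k = cl N i := by
  obtain ⟨i, hi, ht, he⟩ := h1
  obtain ⟨i', hi', ht', he'⟩ := h2
  obtain ⟨rfl, h3, h4⟩ := locate g1 g2 hD hk (cl_lt hN ht).le (cl_lt hN ht').le
    (fun h => by rw [h]) he.symm he'.symm
  exact ⟨i, hi, ht, h3, h4⟩

/-- The times and classes of the traveller of the instruction `(u, v)` before the event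
number `j` of the instruction. -/
def Pth (M N u v n k : ℕ) : Prop :=
  ∃ j i, 1 ≤ j ∧ u + j ≤ v + 1 ∧ i = (u * N + v) * (N + 1) + j ∧
    (((i - 1) * M < n ∧ n ≤ i * M ∧ k + 1 = u + j) ∨ (n = i * M ∧ u + j ≤ v ∧ k = u + j))

theorem idx {u v j : ℕ} (hv : v < N) (hj : j ≤ N) :
    ((u * N + v) * (N + 1) + j) / (N + 1) / N = u ∧
    ((u * N + v) * (N + 1) + j) / (N + 1) % N = v ∧
    ((u * N + v) * (N + 1) + j) % (N + 1) = j := by
  have h1 : ((u * N + v) * (N + 1) + j) / (N + 1) = u * N + v := by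
    rw [add_comm, Nat.add_mul_div_right _ _ (by omega), Nat.div_eq_of_lt (by omega), zero_add]
  have h2 : ((u * N + v) * (N + 1) + j) % (N + 1) = j := by
    rw [add_comm, Nat.add_mul_mod_self_right, Nat.mod_eq_of_lt (by omega)]
  rw [h1, h2]
  refine ⟨?_, ?_, rfl⟩
  · rw [add_comm, Nat.add_mul_div_right _ _ (by omega), Nat.div_eq_of_lt hv, zero_add]
  · rw [add_comm, Nat.add_mul_mod_self_right, Nat.mod_eq_of_lt hv]

theorem cl_eq {u v j : ℕ} (hv : v < N) (hj : j ≤ N) :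
    cl N ((u * N + v) * (N + 1) + j) = u + (j - 1) := by
  obtain ⟨h1, _, h3⟩ := idx (u := u) hv hj
  unfold cl
  rw [h1, h3]

theorem tyU {u v j : ℕ} (hv : v < N) (hj : j ≤ N) :
    ty N E ((u * N + v) * (N + 1) + j) Fk.U ↔ u < v ∧ E u v ∧ j = 0 := by
  obtain ⟨h1, h2, h3⟩ := idx (u := u) hv hj
  unfold ty
  rw [h1, h2, h3]

theorem tyR {u v j : ℕ} (hv : v < N) (hj : j ≤ N) :
    ty N E ((u * N + v) * (N + 1) + j) Fk.R ↔ u < v ∧ E u v ∧ 1 ≤ j ∧ u + j - 1 < v := by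
  obtain ⟨h1, h2, h3⟩ := idx (u := u) hv hj
  unfold ty
  rw [h1, h2, h3]

theorem tyD {u v j : ℕ} (hv : v < N) (hj : j ≤ N) :
    ty N E ((u * N + v) * (N + 1) + j) Fk.D ↔ u < v ∧ E u v ∧ 1 ≤ j ∧ u + j - 1 = v := by
  obtain ⟨h1, h2, h3⟩ := idx (u := u) hv hj
  unfold ty
  rw [h1, h2, h3]

/-- One mark of the type `R` on the path of the traveller. -/
theorem one_mark {α γ M u v n k : ℕ} (hα : 0 < α) (hγ0 : 0 < γ) (hγ : 2 * N * γ < M) (hN : 0 < N)
    (hv : v < N) (hP : Pth M N u v n k) (h : mk1 α γ M N E Fk.R (n * α + k * γ)) :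
    ∃ j i, 1 ≤ j ∧ u + j ≤ v ∧ i = (u * N + v) * (N + 1) + j ∧ n = i * M ∧ k + 1 = u + j := by
  obtain ⟨i2, hi2, ht, he⟩ := h
  obtain ⟨j, i, hj, hj2, hi, hP⟩ := hP
  have hM : 0 < M := by omega
  have hkN : k ≤ N := by omega
  have h1 := near hα hγ hkN (cl_lt hN ht).le he.symm
  have hjN : j ≤ N := by omega
  rcases hP with ⟨p1, p2, p3⟩ | ⟨p1, p2, p3⟩
  · have h2 : i2 = i ∨ i2 + 1 = i := by
      have k1 : i2 ≤ i := by
        by_contra hc
        push Not at hc
        have : (i + 1) * M ≤ i2 * M := Nat.mul_le_mul_right _ hc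
        have e : (i + 1) * M = i * M + M := by ring
        omega
      have k2 : i ≤ i2 + 1 := by
        by_contra hc
        push Not at hc
        have : (i2 + 1) * M ≤ (i - 1) * M := Nat.mul_le_mul_right _ (by omega)
        have e : (i2 + 1) * M = i2 * M + M := by ring
        omega
      omega
    rcases h2 with h2 | h2
    · subst h2
      rw [hi, cl_eq hv hjN, ← hi] at he
      rw [hi, tyR hv hjN] at ht
      have e1 : k = u + (j - 1) := by omega
      rw [← e1] at he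
      have e2 : n = i2 * M := by
        have : i2 * M * α = n * α := by omega
        exact (Nat.eq_of_mul_eq_mul_right hα this).symm
      exact ⟨j, i2, hj, by omega, hi, e2, p3⟩
    · exfalso
      have hi2' : i2 = (u * N + v) * (N + 1) + (j - 1) := by omega
      rw [hi2', tyR hv (by omega)] at ht
      rw [hi2', cl_eq hv (by omega), ← hi2'] at he
      have e1 : u + (j - 1 - 1) ≤ k := by omega
      have e2 : (u + (j - 1 - 1)) * γ ≤ k * γ := Nat.mul_le_mul_right _ e1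
      have e3 : i2 < i := by omega
      have e4 : (i - 1) = i2 := by omega
      rw [e4] at p1
      have e5 : i2 * M * α < n * α := Nat.mul_lt_mul_of_pos_right p1 hα
      omega
  · exfalso
    have h2 : i = i2 := by
      refine near_eq (M := M) (n := n) ?_ h1
      rw [p1]
      omega
    subst h2
    rw [hi, cl_eq hv hjN, ← hi, p1, p3] at he
    have e1 : (u + (j - 1)) * γ = (u + j) * γ := by omega
    have e2 := Nat.eq_of_mul_eq_mul_right hγ0 e1
    omega

end loc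

end Pool.Agent.SNT
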