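import Pool.Agent.SNT.Run

/-!
# SNT/Sim: soundness and completeness of the simulation
-/

set_option autoImplicit false

namespace Pool.Agent.SNT

open Classical Relation
open Pool.Agent.Helper75.Lin (DagStep)

set_option linter.unusedSectionVars false

section sim

variable {g r : ℕ × ℕ} {N : ℕ} {E : ℕ → ℕ → Prop}

/-- The marks on the left. -/
noncomputable def FX (g r : ℕ × ℕ) (N : ℕ) (E : ℕ → ℕ → Prop) (p : ℕ) : Fg :=
  fun φ => decide (mk1 g.1 r.1 (MM r N) N E φ p)

/-- The marks on the right. -/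
noncomputable def FY (g r : ℕ × ℕ) (N : ℕ) (E : ℕ → ℕ → Prop) (q : ℕ) : Fg :=
  fun φ => decide (mk1 g.2 r.2 (MM r N) N E φ q)

/-- The length of the left word. -/
def LX (g r : ℕ × ℕ) (N : ℕ) : ℕ := N * N * (N + 1) * MM r N * g.1 + (N - 1) * r.1

/-- The length of the right word. -/
def LY (g r : ℕ × ℕ) (N : ℕ) : ℕ := N * N * (N + 1) * MM r N * g.2 + (N - 1) * r.2

theorem FX_iff {p : ℕ} {φ : Fk} : FX g r N E p φ = true ↔ mk1 g.1 r.1 (MM r N) N E φ p := by
  unfold FX
  simp

theorem FY_iff {q : ℕ} {φ : Fk} : FY g r N E q φ = true ↔ mk1 g.2 r.2 (MM r N) N E φ q := by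
  unfold FY
  simp

variable (hN : 0 < N) (g1 : 0 < g.1) (g2 : 0 < g.2) (hD : g.1 * r.2 ≠ g.2 * r.1)

include hN g1 g2 hD

/-- Soundness. -/
theorem cf_inv {a b : ℕ} {s : Bool} {p q : ℕ}
    (h : Cf g r (FX g r N E) (FY g r N E) a b s p q) :
    ∃ n k, p = n * g.1 + k * r.1 ∧ q = n * g.2 + k * r.2 ∧
      (s = false → k < N ∧ ReflTransGen (DagStep N E) 0 k) ∧
      (s = true → ∃ u v, u < v ∧ v < N ∧ E u v ∧ ReflTransGen (DagStep N E) 0 u ∧
        Pth (MM r N) N u v n k) := by
  induction h with
  | init =>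
    exact ⟨0, 0, by simp, by simp, fun _ => ⟨hN, ReflTransGen.refl⟩, fun h => by simp at h⟩
  | @gs A B p q _ _ _ hc ih =>
    obtain ⟨n, k, rfl, rfl, h1, h2⟩ := ih
    refine ⟨n + 1, k, by ring, by ring, ?_, ?_⟩
    · rintro rfl
      rcases hc with ⟨rfl, _⟩ | ⟨_, h, _⟩ | ⟨_, h, _⟩ | ⟨rfl, _, h3, h4⟩
      · exact h1 rfl
      · simp at h
      · simp at h
      · obtain ⟨u, v, a1, a2, a3, a4, j, i, j1, j2, hi, hP⟩ := h2 rfl
        rw [FX_iff] at h3
        rw [FY_iff] at h4
        have hk : k ≤ N := by omega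
        have hjN : j ≤ N := by omega
        obtain ⟨i2, _, b2, b3, b4⟩ := both hN g1 g2 hD hk h3 h4
        have hMp := MM_pos (r := r) (N := N)
        have e : i2 = i := by
          rcases hP with ⟨p1, p2, _⟩ | ⟨p1, _⟩
          · rw [b3] at p1 p2
            have c1 := Nat.lt_of_mul_lt_mul_right p1
            have c2 := Nat.le_of_mul_le_mul_right p2 hMp
            omega
          · rw [b3] at p1
            exact Nat.eq_of_mul_eq_mul_right hMp p1
        subst e
        rw [hi, tyD a2 hjN] at b2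
        rw [hi, cl_eq a2 hjN] at b4
        have e2 : k = v := by omega
        subst e2
        exact ⟨a2, a4.tail ⟨a1, a2, a3⟩⟩
    · rintro rfl
      rcases hc with ⟨_, h⟩ | ⟨rfl, _, h3, h4⟩ | ⟨rfl, _, h3, h4⟩ | ⟨_, h, _⟩
      · simp at h
      · obtain ⟨h5, h6⟩ := h1 rfl
        rw [FX_iff] at h3
        rw [FY_iff] at h4
        obtain ⟨i, _, b2, b3, b4⟩ := both hN g1 g2 hD h5.le h3 h4
        obtain ⟨c1, c2, c3⟩ := b2
        have hv : i / (N + 1) % N < N := Nat.mod_lt _ hN
        have hk : k = i / (N + 1) / N := by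
          rw [b4]
          unfold cl
          omega
        refine ⟨k, i / (N + 1) % N, by omega, hv, by rw [hk]; exact c2, h6, 1,
          i + 1, le_rfl, by omega, ?_, Or.inl ⟨?_, ?_, rfl⟩⟩
        · have e1 := Nat.div_add_mod i (N + 1)
          have e2 := Nat.div_add_mod (i / (N + 1)) N
          rw [hk]
          have e3 : i / (N + 1) / N * N + i / (N + 1) % N = i / (N + 1) := by
            rw [mul_comm]; exact e2
          rw [e3, mul_comm]
          omega
        · rw [Nat.add_sub_cancel, ← b3]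
          omega
        · have := MM_pos (r := r) (N := N)
          rw [add_mul, one_mul, ← b3]
          omega
      · obtain ⟨u, v, a1, a2, a3, a4, j, i, j1, j2, hi, hP⟩ := h2 rfl
        have hjN : j ≤ N := by omega
        refine ⟨u, v, a1, a2, a3, a4, ?_⟩
        rcases hP with ⟨p1, p2, p3⟩ | ⟨p1, p2, p3⟩
        · rcases lt_or_eq_of_le p2 with p2 | p2
          · exact ⟨j, i, j1, j2, hi, Or.inl ⟨by omega, p2, p3⟩⟩
          · exfalso
            have hiI : i < N * N * (N + 1) := by
              have e1 : u * N + v + 1 ≤ N * N := by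
                have : (u + 1) * N ≤ N * N := Nat.mul_le_mul_right _ (by omega)
                have e : (u + 1) * N = u * N + N := by ring
                omega
              have e2 : (u * N + v + 1) * (N + 1) ≤ N * N * (N + 1) := Nat.mul_le_mul_right _ e1
              have e3 : (u * N + v + 1) * (N + 1) = (u * N + v) * (N + 1) + (N + 1) := by ring
              omega
            have hcl : cl N i = k := by
              rw [hi, cl_eq a2 hjN]
              omega
            have hm : ∀ φ, ty N E i φ →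
                FX g r N E (n * g.1 + k * r.1) φ = true ∧
                FY g r N E (n * g.2 + k * r.2) φ = true := by
              intro φ hφ
              rw [FX_iff, FY_iff]
              exact ⟨⟨i, hiI, hφ, by rw [p2, hcl]⟩, ⟨i, hiI, hφ, by rw [p2, hcl]⟩⟩
            rcases Nat.lt_or_ge (u + j - 1) v with h5 | h5
            · exact h3 (hm _ (by rw [hi, tyR a2 hjN]; exact ⟨a1, a3, j1, h5⟩))
            · exact h4 (hm _ (by rw [hi, tyD a2 hjN]; exact ⟨a1, a3, j1, by omega⟩))
        · refine ⟨j + 1, i + 1, by omega, by omega, by omega, Or.inl ⟨?_, ?_, by omega⟩⟩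
          · rw [Nat.add_sub_cancel, ← p1]
            omega
          · have := MM_pos (r := r) (N := N)
            rw [add_mul, one_mul, ← p1]
            omega
      · simp at h
  | @rs p q _ _ _ hx hy ih =>
    obtain ⟨n, k, rfl, rfl, _, h2⟩ := ih
    refine ⟨n, k + 1, by ring, by ring, fun h => by simp at h, fun _ => ?_⟩
    obtain ⟨u, v, a1, a2, a3, a4, hP⟩ := h2 rfl
    refine ⟨u, v, a1, a2, a3, a4, ?_⟩
    have hr : 0 < r.1 ∨ 0 < r.2 := by
      by_contra hc
      push Not at hc
      apply hD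
      rw [show r.1 = 0 by omega, show r.2 = 0 by omega, mul_zero, mul_zero]
    have : ∃ j i, 1 ≤ j ∧ u + j ≤ v ∧ i = (u * N + v) * (N + 1) + j ∧ n = i * MM r N ∧
        k + 1 = u + j := by
      rcases hr with hr | hr
      · exact one_mark g1 hr hM1 hN a2 hP (FX_iff.1 (hx hr))
      · exact one_mark g2 hr hM2 hN a2 hP (FY_iff.1 (hy hr))
    obtain ⟨j, i, j1, j2, hi, h3, h4⟩ := this
    exact ⟨j, i, j1, by omega, hi, Or.inr ⟨h3, j2, h4⟩⟩

section compl

variable {a b : ℕ} (ha : a = LX g r N) (hb : b = LY g r N)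

omit hD in
/-- The bounds. -/
theorem bnd {n k : ℕ} (hn : n + 1 ≤ N * N * (N + 1) * MM r N) (hk : k ≤ N - 1) :
    n * g.1 + k * r.1 + g.1 ≤ LX g r N ∧ n * g.2 + k * r.2 + g.2 ≤ LY g r N := by
  have h1 : ∀ x, (n + 1) * x ≤ N * N * (N + 1) * MM r N * x := fun x => Nat.mul_le_mul_right _ hn
  have h2 : ∀ x, k * x ≤ (N - 1) * x := fun x => Nat.mul_le_mul_right _ hk
  have e : ∀ x, (n + 1) * x = n * x + x := fun x => by ring
  unfold LX LY
  constructor
  · have := h1 g.1
    have := h2 r.1
    have := e g.1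
    omega
  · have := h1 g.2
    have := h2 r.2
    have := e g.2
    omega

omit g1 g2 hD hN in
/-- The bounds. -/
theorem bndR {n k : ℕ} (hn : n ≤ N * N * (N + 1) * MM r N) (hk : k + 1 ≤ N - 1) :
    n * g.1 + k * r.1 + r.1 ≤ LX g r N ∧ n * g.2 + k * r.2 + r.2 ≤ LY g r N := by
  have h1 : ∀ x, n * x ≤ N * N * (N + 1) * MM r N * x := fun x => Nat.mul_le_mul_right _ hn
  have h2 : ∀ x, (k + 1) * x ≤ (N - 1) * x := fun x => Nat.mul_le_mul_right _ hk
  have e : ∀ x, (k + 1) * x = k * x + x := fun x => by ring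
  unfold LX LY
  constructor
  · have := h1 g.1
    have := h2 r.1
    have := e r.1
    omega
  · have := h1 g.2
    have := h2 r.2
    have := e r.2
    omega

/-- Configurations by times and classes. -/
def Cn (g r : ℕ × ℕ) (N : ℕ) (E : ℕ → ℕ → Prop) (s : Bool) (n k : ℕ) : Prop :=
  Cf g r (FX g r N E) (FY g r N E) (LX g r N) (LY g r N) s (n * g.1 + k * r.1) (n * g.2 + k * r.2)

omit hD in
theorem cn_step {s s' : Bool} {n k : ℕ} (h : Cn g r N E s n k)
    (hn : n + 1 ≤ N * N * (N + 1) * MM r N) (hk : k ≤ N - 1)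
    (hc : Cg s s' (FX g r N E (n * g.1 + k * r.1)) (FY g r N E (n * g.2 + k * r.2))) :
    Cn g r N E s' (n + 1) k := by
  obtain ⟨h1, h2⟩ := bnd hN g1 g2 hn hk (r := r)
  have h3 := Cf.gs h h1 h2 hc
  unfold Cn
  rw [show (n + 1) * g.1 + k * r.1 = n * g.1 + k * r.1 + g.1 by ring,
    show (n + 1) * g.2 + k * r.2 = n * g.2 + k * r.2 + g.2 by ring]
  exact h3

omit hD in
theorem idle0 {n n' k : ℕ} (h : Cn g r N E false n k) (hn : n ≤ n')
    (hn' : n' ≤ N * N * (N + 1) * MM r N) (hk : k ≤ N - 1) : Cn g r N E false n' k := by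
  induction n' with
  | zero =>
    have : n = 0 := by omega
    rw [← this]
    exact h
  | succ m ih =>
    rcases Nat.lt_or_ge m n with h1 | h1
    · have : n = m + 1 := by omega
      rw [← this]
      exact h
    · exact cn_step hN g1 g2 (ih h1 (by omega)) (by omega) hk (Or.inl ⟨rfl, rfl⟩)

/-- The traveller between two events. -/
theorem idle1 {i n k : ℕ} (h : Cn g r N E true (i * MM r N + 1) k) (hk : k ≤ N - 1)
    (hi : (i + 1) * MM r N ≤ N * N * (N + 1) * MM r N) (hn : i * MM r N + 1 ≤ n)
    (hn' : n ≤ (i + 1) * MM r N) : Cn g r N E true n k := by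
  induction n with
  | zero => omega
  | succ m ih =>
    rcases Nat.lt_or_ge m (i * MM r N + 1) with h1 | h1
    · have : m = i * MM r N := by omega
      rw [this]
      exact h
    · refine cn_step hN g1 g2 (ih h1 (by omega)) (by omega) hk (Or.inr (Or.inr (Or.inl
        ⟨rfl, rfl, ?_, ?_⟩)))
      all_goals
        rintro ⟨h3, h4⟩
        rw [FX_iff] at h3
        rw [FY_iff] at h4
        obtain ⟨i2, _, _, b3, _⟩ := both hN g1 g2 hD (by omega) h3 h4
        rw [b3] at h1 hn'
        have c1 := Nat.lt_of_mul_lt_mul_right (Nat.lt_of_succ_le h1)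
        have c2 : i2 * MM r N < (i + 1) * MM r N := by omega
        have c3 := Nat.lt_of_mul_lt_mul_right c2
        omega

omit g1 g2 hD in
theorem marks_of {u v j i n k : ℕ} {φ : Fk} (hv : v < N) (hu : u < v) (hj : j ≤ N)
    (hi : i = (u * N + v) * (N + 1) + j) (hφ : ty N E i φ) (hn : n = i * MM r N)
    (hk : k = u + (j - 1)) : FX g r N E (n * g.1 + k * r.1) φ = true ∧
      FY g r N E (n * g.2 + k * r.2) φ = true := by
  have hiI : i < N * N * (N + 1) := by
    have e1 : u * N + v + 1 ≤ N * N := by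
      have : (u + 1) * N ≤ N * N := Nat.mul_le_mul_right _ (by omega)
      have e : (u + 1) * N = u * N + N := by ring
      omega
    have e2 : (u * N + v + 1) * (N + 1) ≤ N * N * (N + 1) := Nat.mul_le_mul_right _ e1
    have e3 : (u * N + v + 1) * (N + 1) = (u * N + v) * (N + 1) + (N + 1) := by ring
    omega
  have hcl : cl N i = k := by
    rw [hi, cl_eq hv hj]
    exact hk.symm
  rw [FX_iff, FY_iff]
  exact ⟨⟨i, hiI, hφ, by rw [hn, hcl]⟩, ⟨i, hiI, hφ, by rw [hn, hcl]⟩⟩

omit g1 g2 hD in
theorem idx_le {u v j : ℕ} (hv : v < N) (hu : u < v) (hj : j ≤ N) :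
    ((u * N + v) * (N + 1) + j) * MM r N + 1 ≤ v * (N * (N + 1)) * MM r N ∧
      v * (N * (N + 1)) * MM r N ≤ N * N * (N + 1) * MM r N := by
  have hM := MM_pos (r := r) (N := N)
  constructor
  · have e1 : (u * N + v) * (N + 1) + j + 1 ≤ v * (N * (N + 1)) := by
      have e2 : (u + 1) * (N * (N + 1)) ≤ v * (N * (N + 1)) := Nat.mul_le_mul_right _ hu
      have e3 : (u * N + v + 1) * (N + 1) ≤ (u * N + N) * (N + 1) :=
        Nat.mul_le_mul_right _ (by omega)
      have e4 : (u * N + N) * (N + 1) = (u + 1) * (N * (N + 1)) := by ring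
      have e5 : (u * N + v + 1) * (N + 1) = (u * N + v) * (N + 1) + (N + 1) := by ring
      omega
    have e6 : ((u * N + v) * (N + 1) + j + 1) * MM r N ≤ v * (N * (N + 1)) * MM r N :=
      Nat.mul_le_mul_right _ e1
    have e7 : ((u * N + v) * (N + 1) + j + 1) * MM r N =
      ((u * N + v) * (N + 1) + j) * MM r N + MM r N := by ring
    omega
  · refine Nat.mul_le_mul_right _ ?_
    rw [show N * N * (N + 1) = N * (N * (N + 1)) by ring]
    exact Nat.mul_le_mul_right _ hv.le

/-- The traveller at its events. -/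
theorem travel {u v : ℕ} (hv : v < N) (hu : u < v) (hE : E u v)
    (h : Cn g r N E false ((u * N + v) * (N + 1) * MM r N) u) : ∀ j, 1 ≤ j → u + j ≤ v + 1 →
      Cn g r N E true (((u * N + v) * (N + 1) + j) * MM r N) (u + (j - 1)) := by
  intro j
  induction j with
  | zero => intro h; omega
  | succ j ih =>
    intro _ hj
    have hM := MM_pos (r := r) (N := N)
    have hb1 := idx_le (r := r) hN hv hu (j := j + 1) (by omega)
    have hb0 := idx_le (r := r) hN hv hu (j := j) (by omega)
    have e0 : ((u * N + v) * (N + 1) + j + 1) * MM r N =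
      ((u * N + v) * (N + 1) + j) * MM r N + MM r N := by ring
    have e0' : (u * N + v) * (N + 1) + (j + 1) = (u * N + v) * (N + 1) + j + 1 := by ring
    rw [Nat.add_sub_cancel]
    rcases Nat.eq_zero_or_pos j with rfl | hj0
    · have h1 : Cn g r N E true ((u * N + v) * (N + 1) * MM r N + 1) u := by
        refine cn_step hN g1 g2 h (by simp only [add_zero] at hb0; omega) (by omega)
          (Or.inr (Or.inl ⟨rfl, rfl, ?_⟩))
        exact marks_of (j := 0) hN hv hu (by omega) rfl
          (by rw [tyU hv (by omega)]; exact ⟨hu, hE, rfl⟩) (by simp) (by simp)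
      have h2 := idle1 hN g1 g2 hD (i := (u * N + v) * (N + 1)) (n := ((u * N + v) * (N + 1) + 1) *
        MM r N) h1 (by omega) (by
          simp only [zero_add] at hb1
          omega) (by
          simp only [add_zero] at e0
          omega) le_rfl
      simpa using h2
    · have h1 := ih hj0 (by omega)
      have h3 := marks_of (g := g) (r := r) (E := E) (φ := Fk.R) (j := j) hN hv hu (by omega) rfl
        (by rw [tyR hv (by omega)]; exact ⟨hu, hE, hj0, by omega⟩) rfl rfl
      have h4 : Cn g r N E true (((u * N + v) * (N + 1) + j) * MM r N) (u + j) := by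
        obtain ⟨c1, c2⟩ := bndR (g := g) (r := r) (N := N)
          (n := ((u * N + v) * (N + 1) + j) * MM r N) (k := u + (j - 1))
          (by omega) (by omega)
        have h5 := Cf.rs h1 c1 c2 (fun _ => h3.1) (fun _ => h3.2)
        unfold Cn
        rw [show u + j = (u + (j - 1)) + 1 by omega]
        rw [show (u + (j - 1) + 1) * r.1 = (u + (j - 1)) * r.1 + r.1 by ring,
          show (u + (j - 1) + 1) * r.2 = (u + (j - 1)) * r.2 + r.2 by ring, ← add_assoc,
          ← add_assoc]
        exact h5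
      have h6 : Cn g r N E true (((u * N + v) * (N + 1) + j) * MM r N + 1) (u + j) := by
        refine cn_step hN g1 g2 h4 (by omega) (by omega) (Or.inr (Or.inr (Or.inl
          ⟨rfl, rfl, ?_, ?_⟩)))
        all_goals
          rintro ⟨h3, h4⟩
          rw [FX_iff] at h3
          rw [FY_iff] at h4
          obtain ⟨i2, _, b2, b3, b4⟩ := both hN g1 g2 hD (by omega) h3 h4
          have e2 := Nat.eq_of_mul_eq_mul_right hM b3
          rw [← e2, cl_eq hv (by omega)] at b4
          omega
      rw [e0'] at hb1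
      have h7 := idle1 hN g1 g2 hD (i := (u * N + v) * (N + 1) + j)
        (n := ((u * N + v) * (N + 1) + j + 1) * MM r N) h6 (by omega) (by omega) (by omega) le_rfl
      rw [e0']
      exact h7

/-- Completeness. -/
theorem cn_reach {k : ℕ} (h : ReflTransGen (DagStep N E) 0 k) : ∀ n,
    k * (N * (N + 1)) * MM r N ≤ n → n ≤ N * N * (N + 1) * MM r N → k < N →
      Cn g r N E false n k := by
  induction h with
  | refl =>
    intro n _ hn' hk
    refine idle0 hN g1 g2 (n := 0) ?_ (Nat.zero_le _) hn' (by omega)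
    unfold Cn
    simp only [zero_mul, add_zero]
    exact Cf.init
  | @tail u v _ hs ih =>
    intro n hn hn' hv
    obtain ⟨h1, h2, h3⟩ := hs
    have hb0 := idx_le (r := r) hN hv h1 (j := 0) (by omega)
    have h4 : Cn g r N E false ((u * N + v) * (N + 1) * MM r N) u := by
      refine ih _ ?_ ?_ (by omega)
      · refine Nat.mul_le_mul_right _ ?_
        have : u * (N * (N + 1)) = u * N * (N + 1) := by ring
        rw [this]
        exact Nat.mul_le_mul_right _ (by omega)
      · simp only [add_zero] at hb0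
        omega
    have h5 := travel hN g1 g2 hD hv h1 h3 h4 (v + 1 - u) (by omega) (by omega)
    have hb1 := idx_le (r := r) hN hv h1 (j := v + 1 - u) (by omega)
    have e1 : u + (v + 1 - u - 1) = v := by omega
    have h6 := marks_of (g := g) (r := r) (E := E) (φ := Fk.D) (j := v + 1 - u) hN hv h1 (by omega)
      rfl (by rw [tyD hv (by omega)]; exact ⟨h1, h3, by omega, by omega⟩) rfl rfl
    have h7 := cn_step hN g1 g2 h5 (by omega) (by omega)
      (Or.inr (Or.inr (Or.inr ⟨rfl, rfl, h6.1, h6.2⟩)))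
    rw [e1] at h7
    exact idle0 hN g1 g2 h7 (by omega) hn' (by omega)

end compl

/-- The language of the grammar and reachability. -/
theorem lang_iff : Cf g r (FX g r N E) (FY g r N E) (LX g r N) (LY g r N) false
      (LX g r N) (LY g r N) ↔ ReflTransGen (DagStep N E) 0 (N - 1) := by
  constructor
  · intro h
    obtain ⟨n, k, h1, h2, h3, _⟩ := cf_inv hN g1 g2 hD h
    obtain ⟨h4, h5⟩ := h3 rfl
    obtain ⟨_, _, h6⟩ := locate (n := n) (k := k) (i := N * N * (N + 1)) (k1 := N - 1)
      (i' := N * N * (N + 1)) (k2 := N - 1) g1 g2 hD h4.le (by omega) (by omega) (fun _ => rfl)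
      h1.symm h2.symm
    rw [← h6]
    exact h5
  · intro h
    exact cn_reach hN g1 g2 hD h (N * N * (N + 1) * MM r N) (by
      refine Nat.mul_le_mul_right _ ?_
      rw [show N * N * (N + 1) = N * (N * (N + 1)) by ring]
      exact Nat.mul_le_mul_right _ (by omega)) le_rfl (by omega)

end sim

end Pool.Agent.SNT
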