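import Pool.Agent.SNT.Text

/-!
# SNT/Slot: simulating reachability in acyclic graphs by the slots of the tokens
-/

set_option autoImplicit false

namespace Pool.Agent.SNT

open Blk
open Pool.Agent.Helper75.Lin (DagStep)

/-- The marked slot of the window number `k`. -/
def mkk (N k : ℕ) : ℕ := if k % (N - 1) < N - 1 then N - 1 - k % (N - 1) else 1

/-- The block of the window number `k`. -/
def kdk (N : ℕ) (E : ℕ → ℕ → Prop) [∀ p q, Decidable (E p q)] (k : ℕ) : Blk :=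
  if k / (N - 1) + 1 + k % (N - 1) < N ∧ E (k / (N - 1)) (k / (N - 1) + 1 + k % (N - 1)) then U
  else W

/-- The slot of the vertex `x` at the step `t` of the round `p`. -/
def ps (N p t x : ℕ) : ℕ :=
  if x = p then N - 1 - t
  else if p < x then (if x - p ≤ t then N - (x - p) else N - 1 - (x - p))
  else (if x + N - p ≤ t then N - (x + N - p) else N - 1 - (x + N - p))

section sim

variable {N : ℕ} {E : ℕ → ℕ → Prop}

/-- The vertices reached before the step `t` of the round `p`. -/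
def Rc (N : ℕ) (E : ℕ → ℕ → Prop) (p t x : ℕ) : Prop :=
  x = 0 ∨ ∃ y, Relation.ReflTransGen (DagStep N E) 0 y ∧ DagStep N E y x ∧
    (y < p ∨ (y = p ∧ x ≤ p + t))

theorem rc_reach {p t x : ℕ} (h : Rc N E p t x) : Relation.ReflTransGen (DagStep N E) 0 x := by
  rcases h with rfl | ⟨y, h1, h2, _⟩
  · exact Relation.ReflTransGen.refl
  · exact h1.tail h2

theorem rc_of_reach {p t x : ℕ} (h : Relation.ReflTransGen (DagStep N E) 0 x) (hx : x ≤ p) :
    Rc N E p t x := by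
  rcases Relation.ReflTransGen.cases_tail h with h | ⟨y, h1, h2⟩
  · exact Or.inl h
  · exact Or.inr ⟨y, h1, h2, Or.inl (lt_of_lt_of_le h2.1 hx)⟩

theorem rc_succ {p t x : ℕ} : Rc N E p (t + 1) x ↔ Rc N E p t x ∨
    (x = p + 1 + t ∧ x < N ∧ E p x ∧ Rc N E p t p) := by
  constructor
  · rintro (h | ⟨y, h1, h2, h3⟩)
    · exact Or.inl (Or.inl h)
    · rcases h3 with h3 | ⟨rfl, h3⟩
      · exact Or.inl (Or.inr ⟨y, h1, h2, Or.inl h3⟩)
      · rcases Nat.lt_or_ge (y + t) x with h4 | h4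
        · exact Or.inr ⟨by omega, h2.2.1, h2.2.2, rc_of_reach h1 le_rfl⟩
        · exact Or.inl (Or.inr ⟨y, h1, h2, Or.inr ⟨rfl, h4⟩⟩)
  · rintro ((h | ⟨y, h1, h2, h3⟩) | ⟨h1, h2, h3, h4⟩)
    · exact Or.inl h
    · exact Or.inr ⟨y, h1, h2, by omega⟩
    · exact Or.inr ⟨p, rc_reach h4, ⟨by omega, h2, h3⟩, by omega⟩

theorem rc_next {p x : ℕ} (hx : x < N) : Rc N E p (N - 1) x ↔ Rc N E (p + 1) 0 x := by
  constructor
  · rintro (h | ⟨y, h1, h2, h3⟩)
    · exact Or.inl h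
    · exact Or.inr ⟨y, h1, h2, by omega⟩
  · rintro (h | ⟨y, h1, h2, h3⟩)
    · exact Or.inl h
    · have := h2.1
      exact Or.inr ⟨y, h1, h2, by omega⟩

theorem rc_zero {x : ℕ} : Rc N E 0 0 x ↔ x = 0 := by
  constructor
  · rintro (h | ⟨y, h1, h2, h3⟩)
    · exact h
    · have := h2.1
      omega
  · exact Or.inl

theorem ps_next {p x : ℕ} (hp : p + 1 < N) (hx : x < N) : ps N p (N - 1) x = ps N (p + 1) 0 x := by
  unfold ps
  split_ifs <;> omega

variable [∀ p q, Decidable (E p q)]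

theorem mkk_eq {p t : ℕ} (ht : t < N - 1) : mkk N (p * (N - 1) + t) = N - 1 - t := by
  have h1 : (p * (N - 1) + t) % (N - 1) = t := by
    rw [add_comm, Nat.add_mul_mod_self_right, Nat.mod_eq_of_lt ht]
  unfold mkk
  rw [h1, if_pos ht]

theorem kdk_eq {p t : ℕ} (ht : t < N - 1) : kdk N E (p * (N - 1) + t) =
    if p + 1 + t < N ∧ E p (p + 1 + t) then U else W := by
  have h1 : (p * (N - 1) + t) % (N - 1) = t := by
    rw [add_comm, Nat.add_mul_mod_self_right, Nat.mod_eq_of_lt ht]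
  have h2 : (p * (N - 1) + t) / (N - 1) = p := by
    rw [add_comm, Nat.add_mul_div_right _ _ (by omega), Nat.div_eq_of_lt ht, zero_add]
  unfold kdk
  rw [h1, h2]

theorem mkk_pos (k : ℕ) : 1 ≤ mkk N k := by
  unfold mkk
  split_ifs <;> omega

theorem mkk_le (hN : 0 < N) (k : ℕ) : mkk N k ≤ N := by
  unfold mkk
  split_ifs <;> omega

theorem kdk_ne (k : ℕ) : kdk N E k ≠ V := by
  unfold kdk
  split_ifs <;> simp

/-- One window. -/
theorem one {mk : ℕ → ℕ} {kd : ℕ → Blk} {S0 k p t : ℕ} (hp : p < N) (ht : t < N - 1)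
    (hmk : mk k = N - 1 - t) (hkd : kd k = if p + 1 + t < N ∧ E p (p + 1 + t) then U else W)
    (h : ∀ o, Sl mk kd S0 k o ↔ ∃ x, x < N ∧ Rc N E p t x ∧ o = ps N p t x) :
    ∀ o, Sl mk kd S0 (k + 1) o ↔ ∃ x, x < N ∧ Rc N E p (t + 1) x ∧ o = ps N p (t + 1) x := by
  have hps : ∀ x, x < N → (x = p ∧ ps N p t x = N - 1 - t ∧ ps N p (t + 1) x + 1 = N - 1 - t) ∨
      (x ≠ p ∧ ps N p t x + 1 = N - 1 - t ∧ ps N p (t + 1) x = N - 1 - t) ∨
      (x ≠ p ∧ x ≠ p + 1 + t ∧ ps N p t x ≠ N - 1 - t ∧ ps N p t x + 1 ≠ N - 1 - t ∧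
        ps N p (t + 1) x = ps N p t x) := by
    intro x hx
    unfold ps
    split_ifs <;> omega
  have hps2 : p + 1 + t < N → ps N p (t + 1) (p + 1 + t) = N - 1 - t := by
    intro h1
    unfold ps
    split_ifs <;> omega
  intro o
  constructor
  · rintro ⟨d, h1, h2⟩
    obtain ⟨x, hx, hR, rfl⟩ := (h d).1 h1
    rcases hps x hx with ⟨rfl, a1, a2⟩ | ⟨a0, a1, a2⟩ | ⟨a0, a0', a1, a2, a3⟩
    · rcases h2 with h2 | h2 | ⟨_, h2 | ⟨h2, h3⟩⟩
      · omega
      · omega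
      · exact ⟨x, hx, rc_succ.2 (Or.inl hR), by omega⟩
      · rw [hkd] at h2
        split_ifs at h2 with h4
        exact ⟨x + 1 + t, h4.1, rc_succ.2 (Or.inr ⟨rfl, h4.1, h4.2, hR⟩), by
          rw [hps2 h4.1]; omega⟩
    · refine ⟨x, hx, rc_succ.2 (Or.inl hR), ?_⟩
      rcases h2 with h2 | h2 | h2 <;> omega
    · refine ⟨x, hx, rc_succ.2 (Or.inl hR), ?_⟩
      rcases h2 with h2 | h2 | h2 <;> omega
  · rintro ⟨x, hx, hR, rfl⟩
    rcases rc_succ.1 hR with hR | ⟨rfl, h1, h2, h3⟩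
    · refine ⟨ps N p t x, (h _).2 ⟨x, hx, hR, rfl⟩, ?_⟩
      unfold Mvs
      rw [hmk]
      rcases hps x hx with ⟨rfl, a1, a2⟩ | ⟨a0, a1, a2⟩ | ⟨a0, a0', a1, a2, a3⟩ <;> omega
    · refine ⟨ps N p t p, (h _).2 ⟨p, hp, h3, rfl⟩, ?_⟩
      rcases hps p hp with ⟨_, a1, a2⟩ | ⟨a0, _, _⟩ | ⟨a0, _⟩
      · refine Or.inr (Or.inr ⟨by omega, Or.inr ⟨?_, by rw [hps2 h1, a1]⟩⟩)
        rw [hkd, if_pos ⟨h1, h2⟩]
      · exact absurd rfl a0
      · exact absurd rfl a0

theorem sl_all (p : ℕ) (hp : p < N) : ∀ t, t ≤ N - 1 →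
    ∀ o, Sl (mkk N) (kdk N E) (N - 1) (p * (N - 1) + t) o ↔
      ∃ x, x < N ∧ Rc N E p t x ∧ o = ps N p t x := by
  induction p with
  | zero =>
    intro t
    induction t with
    | zero =>
      intro _ o
      rw [zero_mul, add_zero]
      simp only [Sl, rc_zero]
      constructor
      · rintro rfl
        exact ⟨0, hp, rfl, by simp [ps]⟩
      · rintro ⟨x, _, rfl, rfl⟩
        simp [ps]
    | succ t ih =>
      intro ht
      exact one hp (by omega) (mkk_eq (by omega)) (kdk_eq (by omega)) (ih (by omega))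
  | succ p ihp =>
    intro t
    induction t with
    | zero =>
      intro _ o
      have h1 := ihp (by omega) (N - 1) le_rfl o
      rw [show (p + 1) * (N - 1) + 0 = p * (N - 1) + (N - 1) by ring, h1]
      constructor
      · rintro ⟨x, hx, hR, rfl⟩
        exact ⟨x, hx, (rc_next hx).1 hR, ps_next hp hx⟩
      · rintro ⟨x, hx, hR, rfl⟩
        exact ⟨x, hx, (rc_next hx).2 hR, (ps_next hp hx).symm⟩
    | succ t ih =>
      intro ht
      exact one hp (by omega) (mkk_eq (by omega)) (kdk_eq (by omega)) (ih (by omega))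

theorem sl_final (hN : 0 < N) : Sl (mkk N) (kdk N E) (N - 1) (N * (N - 1)) 0 ↔
    Relation.ReflTransGen (DagStep N E) 0 (N - 1) := by
  have e : N * (N - 1) = (N - 1) * (N - 1) + (N - 1) := by
    obtain ⟨m, rfl⟩ : ∃ m, N = m + 1 := ⟨N - 1, by omega⟩
    simp only [Nat.add_sub_cancel]
    ring
  rw [e, sl_all (N - 1) (by omega) (N - 1) le_rfl]
  constructor
  · rintro ⟨x, hx, hR, h⟩
    have : x = N - 1 := by
      unfold ps at h
      split_ifs at h <;> omega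
    subst this
    exact rc_reach hR
  · intro h
    exact ⟨N - 1, by omega, rc_of_reach h le_rfl, by simp [ps]⟩

end sim

end Pool.Agent.SNT
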