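import Pool.Agent.SNT.Read
import Pool.Agent.Helper75.Lin4.Final

/-!
# SNT/Text: windows
-/

set_option autoImplicit false

namespace Pool.Agent.SNT

open Blk
open Pool.Agent.Helper75.Lin4 (rp rp_succ rp_zero rp_succ')

/-- The text of the blocks `f P, ..., f (P + n - 1)`. -/
def tx (f : ℕ → Blk) : ℕ → ℕ → List RB
  | _, 0 => []
  | P, n + 1 => bt (f P) ++ tx f (P + 1) n

section reading

variable {f : ℕ → Blk} {L : ℕ}

/-- The remaining text at the block number `P`. -/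
def St (f : ℕ → Blk) (L P : ℕ) : List RB := tx f P (L - P)

theorem st_lt {P : ℕ} (h : P < L) : St f L P = bt (f P) ++ St f L (P + 1) := by
  unfold St
  obtain ⟨m, hm⟩ : ∃ m, L - P = m + 1 := ⟨L - P - 1, by omega⟩
  rw [hm, show L - (P + 1) = m by omega]
  rfl

theorem st_ge {P : ℕ} (h : L ≤ P) : St f L P = [] := by
  unfold St
  rw [show L - P = 0 by omega]
  rfl

theorem rd_idle (hV : f (L - 1) = V) {P : ℕ} {s' : Bool} {t' : List RB} :
    Rd wA false (St f L P) s' t' ↔ P < L ∧ s' = false ∧ t' = St f L (P + 1) := by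
  rcases Nat.lt_or_ge P L with h | h
  · rcases Nat.lt_or_ge (P + 1) L with h1 | h1
    · rw [st_lt h, st_lt h1, ← List.append_assoc, chk_spec (idle_cert _ _)]
      simp [h]
    · have h2 : P = L - 1 := by omega
      rw [st_lt h, st_ge h1, h2, hV, List.append_nil, last_idle]
      simp
      omega
  · rw [st_ge h]
    have h2 : ¬ P < L := by omega
    simp only [h2, false_and, iff_false]
    exact empty_idle

theorem rd_idles (hV : f (L - 1) = V) {n P : ℕ} {s' : Bool} {t' : List RB} (hP : P ≤ L) :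
    Rd (rp n wA) false (St f L P) s' t' ↔ P + n ≤ L ∧ s' = false ∧ t' = St f L (P + n) := by
  induction n generalizing s' t' with
  | zero =>
    rw [rp_zero]
    simp [Rd, hP]
  | succ n ih =>
    rw [rp_succ, rd_append]
    constructor
    · rintro ⟨s1, t1, h1, h2⟩
      obtain ⟨h3, rfl, rfl⟩ := ih.1 h1
      obtain ⟨h4, rfl, rfl⟩ := (rd_idle hV).1 h2
      exact ⟨by omega, rfl, rfl⟩
    · rintro ⟨h1, rfl, rfl⟩
      exact ⟨_, _, ih.2 ⟨by omega, rfl, rfl⟩, (rd_idle hV).2 ⟨by omega, rfl, rfl⟩⟩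

theorem st_four {P : ℕ} (h : P + 4 ≤ L) :
    St f L P = ft [f P, f (P + 1), f (P + 2), f (P + 3)] ++ St f L (P + 4) := by
  rw [st_lt (by omega), st_lt (P := P + 1) (by omega), st_lt (P := P + 1 + 1) (by omega),
    st_lt (P := P + 1 + 1 + 1) (by omega)]
  simp [ft, List.append_assoc]

theorem st_two {P : ℕ} (h : P + 4 ≤ L) :
    St f L (P + 2) = ft [f (P + 2), f (P + 3)] ++ St f L (P + 4) := by
  rw [st_lt (P := P + 2) (by omega), st_lt (P := P + 2 + 1) (by omega)]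
  simp [ft, List.append_assoc]

theorem st_one {P : ℕ} (h : P + 4 ≤ L) :
    St f L (P + 3) = ft [f (P + 3)] ++ St f L (P + 4) := by
  rw [st_lt (P := P + 3) (by omega)]
  simp [ft, List.append_assoc]

theorem st_three {P : ℕ} (h : P + 4 ≤ L) :
    St f L (P + 1) = ft [f (P + 1), f (P + 2), f (P + 3)] ++ St f L (P + 4) := by
  rw [st_lt (P := P + 1) (by omega), st_lt (P := P + 1 + 1) (by omega),
    st_lt (P := P + 1 + 1 + 1) (by omega)]
  simp [ft, List.append_assoc]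

theorem tick_W {P : ℕ} (h : P + 4 ≤ L) (h0 : f P = W) (h1 : f (P + 1) = V) (h2 : f (P + 2) = V)
    (h3 : f (P + 3) = V) {s' : Bool} {t' : List RB} :
    Rd wT false (St f L P) s' t' ↔ s' = false ∧ t' = St f L (P + 1) := by
  rw [st_three h, st_four h, h0, h1, h2, h3, chk_spec tickW_cert]
  simp

theorem tick_U {P : ℕ} (h : P + 4 ≤ L) (h0 : f P = U) (h1 : f (P + 1) = V) (h2 : f (P + 2) = V)
    (h3 : f (P + 3) = V) {s' : Bool} {t' : List RB} :
    Rd wT false (St f L P) s' t' ↔ s' = false ∧ (t' = St f L (P + 1) ∨ t' = St f L (P + 2)) := by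
  rw [st_three h, st_two h, st_four h, h0, h1, h2, h3, chk_spec tickU_cert]
  simp

theorem tick_B {P : ℕ} (h : P + 4 ≤ L) (h0 : f P = V) (h1 : f (P + 1) ≠ V) (h2 : f (P + 2) = V)
    (h3 : f (P + 3) = V) {s' : Bool} {t' : List RB} :
    Rd wT false (St f L P) s' t' ↔ s' = false ∧ t' = St f L (P + 3) := by
  rw [st_one h, st_four h, h0, h2, h3, chk_spec (tickB_cert _ h1)]
  simp

theorem tick_V {P : ℕ} (h : P + 4 ≤ L) (h0 : f P = V) (h1 : f (P + 1) = V)
    (h23 : f (P + 2) = V ∨ f (P + 3) = V) {s' : Bool} {t' : List RB} :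
    Rd wT false (St f L P) s' t' ↔ s' = false ∧ t' = St f L (P + 2) := by
  rcases h23 with h2 | h3
  · rw [st_two h, st_four h, h0, h1, h2, chk_spec (tickV_cert _).2]
    simp
  · rw [st_two h, st_four h, h0, h1, h3, chk_spec (tickV_cert _).1]
    simp

end reading

/-- The blocks: the window number `k < K` has the block `kd k` at the place `mk k`. -/
def fb (τ K : ℕ) (mk : ℕ → ℕ) (kd : ℕ → Blk) (P : ℕ) : Blk :=
  if P / τ < K ∧ P % τ = mk (P / τ) then kd (P / τ) else V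

/-- The left word of a window. -/
def wl (τ : ℕ) : List LA := wT ++ rp (τ - 2) wA

/-- The moves of a token in the window number `k`. -/
def Mvs (mk : ℕ → ℕ) (kd : ℕ → Blk) (k d d' : ℕ) : Prop :=
  (d ≠ mk k ∧ d + 1 ≠ mk k ∧ d' = d) ∨ (d + 1 = mk k ∧ d' = d + 1) ∨
    (d = mk k ∧ (d' + 1 = d ∨ (kd k = U ∧ d' = d)))

/-- The slots of the tokens before the window number `k`. -/
def Sl (mk : ℕ → ℕ) (kd : ℕ → Blk) (S0 : ℕ) : ℕ → ℕ → Prop
  | 0 => fun d => d = S0
  | k + 1 => fun d' => ∃ d, Sl mk kd S0 k d ∧ Mvs mk kd k d d'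

section windows

variable {τ K S0 D0 : ℕ} {mk : ℕ → ℕ} {kd : ℕ → Blk}

theorem sl_le (hS : S0 ≤ D0) (hmk : ∀ k, mk k ≤ D0) (k : ℕ) : ∀ d, Sl mk kd S0 k d → d ≤ D0 := by
  induction k with
  | zero =>
    intro d h
    exact (le_of_eq h).trans hS
  | succ k ih =>
    rintro d' ⟨d, h, h2⟩
    have := ih d h
    have := hmk k
    unfold Mvs at h2
    omega

theorem fb_win {k i : ℕ} (hi : i < τ) (hk : k < K) :
    fb τ K mk kd (k * τ + i) = if i = mk k then kd k else V := by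
  have e1 : (k * τ + i) / τ = k := by
    rw [add_comm, Nat.add_mul_div_right _ _ (by omega), Nat.div_eq_of_lt hi, zero_add]
  have e2 : (k * τ + i) % τ = i := by
    rw [add_comm, Nat.add_mul_mod_self_right, Nat.mod_eq_of_lt hi]
  unfold fb
  rw [e1, e2]
  simp only [hk, true_and]

theorem fb_end {P : ℕ} (hP : K * τ ≤ P) (hτ : 0 < τ) : fb τ K mk kd P = V := by
  unfold fb
  have : K ≤ P / τ := by
    rw [Nat.le_div_iff_mul_le hτ]
    exact hP
  rw [if_neg (by omega)]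

/-- A window. -/
theorem rd_window (hτ : D0 + 4 ≤ τ) (hm : ∀ k, 1 ≤ mk k) (hkd : ∀ k, kd k ≠ V)
    {k d : ℕ} (hk : k < K) (hd : d ≤ D0) {s' : Bool} {t' : List RB} :
    Rd (wl τ) false (St (fb τ K mk kd) ((K + 1) * τ) (k * τ + d)) s' t' ↔
      ∃ d', Mvs mk kd k d d' ∧ s' = false ∧
        t' = St (fb τ K mk kd) ((K + 1) * τ) ((k + 1) * τ + d') := by
  set f := fb τ K mk kd with hf
  set L := (K + 1) * τ with hL
  have hKL : k * τ + τ + τ ≤ L := by
    have : (k + 2) * τ ≤ (K + 1) * τ := Nat.mul_le_mul_right _ (by omega)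
    rw [hL]
    linarith [this]
  have hV : f (L - 1) = V := by
    apply fb_end _ (by omega)
    rw [hL, add_mul]
    omega
  have hP4 : k * τ + d + 4 ≤ L := by omega
  have g0 := fb_win (mk := mk) (kd := kd) (i := d) (by omega : d < τ) hk
  have g1 := fb_win (mk := mk) (kd := kd) (i := d + 1) (by omega : d + 1 < τ) hk
  have g2 := fb_win (mk := mk) (kd := kd) (i := d + 2) (by omega : d + 2 < τ) hk
  have g3 := fb_win (mk := mk) (kd := kd) (i := d + 3) (by omega : d + 3 < τ) hk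
  simp only [← add_assoc, ← hf] at g0 g1 g2 g3
  have m1 := hm k
  have hk' := hkd k
  have hid : ∀ n c P, P ≤ L → P + n ≤ L → P + n = (k + 1) * τ + c →
      (∀ s' t', Rd (rp n wA) false (St f L P) s' t' ↔ s' = false ∧
        t' = St f L ((k + 1) * τ + c)) := by
    intro n c P h1 h2 h3 s' t'
    rw [rd_idles hV h1, h3]
    simp only [and_iff_right_iff_imp]
    intro _
    omega
  have e1 : (k + 1) * τ = k * τ + τ := by ring
  unfold wl
  rw [rd_append]
  by_cases hmk : d = mk k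
  · -- the special block
    rw [if_pos hmk] at g0
    rw [if_neg (by omega)] at g1 g2 g3
    have a1 := hid (τ - 2) (d - 1) (k * τ + d + 1) (by omega) (by omega) (by omega)
    have a2 := hid (τ - 2) d (k * τ + d + 2) (by omega) (by omega) (by omega)
    cases hk0 : kd k with
    | V => exact absurd hk0 hk'
    | W =>
      rw [hk0] at g0
      constructor
      · rintro ⟨s1, t1, h1, h2⟩
        obtain ⟨rfl, rfl⟩ := (tick_W hP4 g0 g1 g2 g3).1 h1
        rw [a1] at h2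
        exact ⟨d - 1, Or.inr (Or.inr ⟨hmk, Or.inl (by omega)⟩), h2⟩
      · rintro ⟨d', h1, rfl, rfl⟩
        unfold Mvs at h1
        have h2 : d' = d - 1 := by
          rcases h1 with h1 | h1 | ⟨_, h1 | ⟨h1, _⟩⟩
          · omega
          · omega
          · omega
          · rw [hk0] at h1
            simp at h1
        subst h2
        exact ⟨_, _, (tick_W hP4 g0 g1 g2 g3).2 ⟨rfl, rfl⟩, (a1 _ _).2 ⟨rfl, rfl⟩⟩
    | U =>
      rw [hk0] at g0
      constructor
      · rintro ⟨s1, t1, h1, h2⟩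
        obtain ⟨rfl, rfl | rfl⟩ := (tick_U hP4 g0 g1 g2 g3).1 h1
        · rw [a1] at h2
          exact ⟨d - 1, Or.inr (Or.inr ⟨hmk, Or.inl (by omega)⟩), h2⟩
        · rw [a2] at h2
          exact ⟨d, Or.inr (Or.inr ⟨hmk, Or.inr ⟨hk0, rfl⟩⟩), h2⟩
      · rintro ⟨d', h1, rfl, rfl⟩
        unfold Mvs at h1
        have h2 : d' = d ∨ d' = d - 1 := by omega
        rcases h2 with rfl | rfl
        · exact ⟨_, _, (tick_U hP4 g0 g1 g2 g3).2 ⟨rfl, Or.inr rfl⟩, (a2 _ _).2 ⟨rfl, rfl⟩⟩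
        · exact ⟨_, _, (tick_U hP4 g0 g1 g2 g3).2 ⟨rfl, Or.inl rfl⟩, (a1 _ _).2 ⟨rfl, rfl⟩⟩
  · rw [if_neg hmk] at g0
    by_cases hmk1 : d + 1 = mk k
    · rw [if_pos hmk1] at g1
      rw [if_neg (by omega)] at g2 g3
      have a3 := hid (τ - 2) (d + 1) (k * τ + d + 3) (by omega) (by omega) (by omega)
      have g1' : f (k * τ + d + 1) ≠ V := by rw [g1]; exact hk'
      constructor
      · rintro ⟨s1, t1, h1, h2⟩
        obtain ⟨rfl, rfl⟩ := (tick_B hP4 g0 g1' g2 g3).1 h1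
        rw [a3] at h2
        exact ⟨d + 1, Or.inr (Or.inl ⟨hmk1, rfl⟩), h2⟩
      · rintro ⟨d', h1, rfl, rfl⟩
        unfold Mvs at h1
        have h2 : d' = d + 1 := by omega
        subst h2
        exact ⟨_, _, (tick_B hP4 g0 g1' g2 g3).2 ⟨rfl, rfl⟩, (a3 _ _).2 ⟨rfl, rfl⟩⟩
    · rw [if_neg hmk1] at g1
      have g23 : f (k * τ + d + 2) = V ∨ f (k * τ + d + 3) = V := by
        by_cases b2 : d + 2 = mk k
        · right
          rw [g3, if_neg (by omega)]
        · left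
          rw [g2, if_neg b2]
      have a2 := hid (τ - 2) d (k * τ + d + 2) (by omega) (by omega) (by omega)
      constructor
      · rintro ⟨s1, t1, h1, h2⟩
        obtain ⟨rfl, rfl⟩ := (tick_V hP4 g0 g1 g23).1 h1
        rw [a2] at h2
        exact ⟨d, Or.inl ⟨hmk, hmk1, rfl⟩, h2⟩
      · rintro ⟨d', h1, rfl, rfl⟩
        unfold Mvs at h1
        have h2 : d' = d := by omega
        subst h2
        exact ⟨_, _, (tick_V hP4 g0 g1 g23).2 ⟨rfl, rfl⟩, (a2 _ _).2 ⟨rfl, rfl⟩⟩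

/-- The left word of the first `k` windows. -/
def pf (τ S0 k : ℕ) : List LA := rp S0 wA ++ rp k (wl τ)

theorem rd_pf (hτ : D0 + 4 ≤ τ) (hS : S0 ≤ D0) (hm : ∀ k, 1 ≤ mk k) (hmk : ∀ k, mk k ≤ D0)
    (hkd : ∀ k, kd k ≠ V) (k : ℕ) :
    k ≤ K → ∀ s' t', Rd (pf τ S0 k) false (St (fb τ K mk kd) ((K + 1) * τ) 0) s' t' ↔
      ∃ d, Sl mk kd S0 k d ∧ s' = false ∧
        t' = St (fb τ K mk kd) ((K + 1) * τ) (k * τ + d) := by
  have hV : fb τ K mk kd ((K + 1) * τ - 1) = V := by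
    apply fb_end _ (by omega)
    rw [add_mul]
    omega
  have hL0 : S0 ≤ (K + 1) * τ := by
    have : 1 * τ ≤ (K + 1) * τ := Nat.mul_le_mul_right _ (by omega)
    omega
  induction k with
  | zero =>
    intro _ s' t'
    show Rd (rp S0 wA ++ rp 0 _) _ _ _ _ ↔ _
    rw [rp_zero, List.append_nil, rd_idles hV (Nat.zero_le _)]
    simp only [zero_add, zero_mul, hL0, true_and, Sl, exists_eq_left]
  | succ k ih =>
    intro hk s' t'
    have e : pf τ S0 (k + 1) = pf τ S0 k ++ wl τ := by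
      unfold pf
      rw [rp_succ, List.append_assoc]
    rw [e, rd_append]
    constructor
    · rintro ⟨s1, t1, h1, h2⟩
      obtain ⟨d, h3, rfl, rfl⟩ := (ih (by omega) s1 t1).1 h1
      obtain ⟨d', h4, h5⟩ := (rd_window hτ hm hkd (by omega) (sl_le hS hmk _ _ h3)).1 h2
      exact ⟨d', ⟨d, h3, h4⟩, h5⟩
    · rintro ⟨d', ⟨d, h3, h4⟩, h5⟩
      exact ⟨_, _, (ih (by omega) _ _).2 ⟨d, h3, rfl, rfl⟩,
        (rd_window hτ hm hkd (by omega) (sl_le hS hmk _ _ h3)).2 ⟨d', h4, h5⟩⟩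

theorem rd_all (hτ : D0 + 4 ≤ τ) (hS : S0 ≤ D0) (hm : ∀ k, 1 ≤ mk k) (hmk : ∀ k, mk k ≤ D0)
    (hkd : ∀ k, kd k ≠ V) :
    (∃ s1 t1, Rd (pf τ S0 K ++ rp τ wA) false (St (fb τ K mk kd) ((K + 1) * τ) 0) s1 t1 ∧
      Vr s1 t1 false []) ↔ Sl mk kd S0 K 0 := by
  have hV : fb τ K mk kd ((K + 1) * τ - 1) = V := by
    apply fb_end _ (by omega)
    rw [add_mul]
    omega
  have e1 : (K + 1) * τ = K * τ + τ := by ring
  constructor
  · rintro ⟨s1, t1, h0, _⟩
    rw [rd_append] at h0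
    obtain ⟨s2, t2, h1, h2⟩ := h0
    obtain ⟨d, h3, rfl, rfl⟩ := (rd_pf hτ hS hm hmk hkd K le_rfl s2 t2).1 h1
    have hd := sl_le hS hmk _ _ h3
    rw [rd_idles hV (by omega)] at h2
    have : d = 0 := by omega
    subst this
    exact h3
  · intro h
    refine ⟨false, [], ?_, Vr.refl _ _⟩
    rw [rd_append]
    refine ⟨_, _, (rd_pf hτ hS hm hmk hkd K le_rfl _ _).2 ⟨0, h, rfl, rfl⟩, ?_⟩
    rw [rd_idles hV (by omega)]
    exact ⟨by omega, rfl, by rw [st_ge (by omega)]⟩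

end windows

end Pool.Agent.SNT
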